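import Pool.Agent.N528.Torus.Cover

/-! The area of the Gauss image, and the contradiction. -/

set_option autoImplicit false

open scoped ContDiff RealInnerProductSpace Topology ENNReal
open MeasureTheory Metric H575Germ Set

namespace Pool.Agent.N528.Torus

/-- the projection to the first two coordinates -/
noncomputable def prj : E3 →L[ℝ] E2 :=
  (EuclideanSpace.proj 0 : E3 →L[ℝ] ℝ).smulRight (EuclideanSpace.single 0 1) +
    (EuclideanSpace.proj 1 : E3 →L[ℝ] ℝ).smulRight (EuclideanSpace.single 1 1)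

theorem prj_apply (q : E3) :
    prj q = q 0 • (EuclideanSpace.single 0 1 : E2) + q 1 • (EuclideanSpace.single 1 1 : E2) := rfl

theorem prj_0 (q : E3) : (prj q) 0 = q 0 := by
  rw [prj_apply]; simp

theorem prj_1 (q : E3) : (prj q) 1 = q 1 := by
  rw [prj_apply]; simp

theorem det_eq_tri (A : E3 →L[ℝ] E3) :
    A.det = ⟪cr (A (EuclideanSpace.single 0 1)) (A (EuclideanSpace.single 1 1)),
      A (EuclideanSpace.single 2 1)⟫ := by
  have h : A.det = LinearMap.det (A : E3 →ₗ[ℝ] E3) := rfl
  rw [h, ← LinearMap.det_toMatrix (EuclideanSpace.basisFun (Fin 3) ℝ).toBasis,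
    Matrix.det_fin_three]
  simp only [LinearMap.toMatrix_apply, OrthonormalBasis.coe_toBasis_repr_apply,
    OrthonormalBasis.coe_toBasis, EuclideanSpace.basisFun_apply, EuclideanSpace.basisFun_repr,
    ContinuousLinearMap.coe_coe]
  rw [inner3, cr0, cr1, cr2]
  ring

section

variable {R r s : ℝ} (hs : 0 < s) (hsr : s < r) (hrR : r < R) {f : E2 → E3}
  (hf : IsIsometricImmersion 2 (pmetric R r s) f)

include hs hsr hrR hf in
theorem frame_ext (x : E2) (v : E3) :
    v = (⟪v, pd 0 f x⟫ / r ^ 2) • pd 0 f x + (⟪v, pd 1 f x⟫ / (ph R s x) ^ 2) • pd 1 f x +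
      ⟪v, nor R r s f x⟫ • nor R r s f x := by
  apply ext_inner_right ℝ
  intro w
  rw [expand' hs hsr hrR hf x v w, inner_add_left, inner_add_left, real_inner_smul_left,
    real_inner_smul_left, real_inner_smul_left, real_inner_comm w (pd 0 f x),
    real_inner_comm w (pd 1 f x), real_inner_comm w (nor R r s f x)]
  ring

theorem cr_add_left (a b c : E3) : cr (a + b) c = cr a c + cr b c := by
  ext i; fin_cases i <;> simp [cr] <;> ring

theorem cr_comb (a b : E3) (p q p' q' : ℝ) :
    cr (p • a + q • b) (p' • a + q' • b) = (p * q' - q * p') • cr a b := by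
  ext i; fin_cases i <;> simp [cr] <;> ring

include hs hsr hrR hf in
theorem dnor0 (x : E2) : pd 0 (nor R r s f) x =
    (-sL R r s f x / r ^ 2) • pd 0 f x + (-sM R r s f x / (ph R s x) ^ 2) • pd 1 f x := by
  have h := frame_ext hs hsr hrR hf x (pd 0 (nor R r s f) x)
  rw [dnor_nor hs hsr hrR hf, dnor_pd hs hsr hrR hf, dnor_pd hs hsr hrR hf, zero_smul,
    add_zero] at h
  exact h

include hs hsr hrR hf in
theorem dnor1 (x : E2) : pd 1 (nor R r s f) x =
    (-sM R r s f x / r ^ 2) • pd 0 f x + (-sP R r s f x / (ph R s x) ^ 2) • pd 1 f x := by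
  have h := frame_ext hs hsr hrR hf x (pd 1 (nor R r s f) x)
  rw [dnor_nor hs hsr hrR hf, dnor_pd hs hsr hrR hf, dnor_pd hs hsr hrR hf, zero_smul,
    add_zero, J9677.job9677_symm hf.contDiff 1 0 x] at h
  exact h

include hs hsr hrR hf in
theorem tri_nor (x : E2) : ⟪cr (pd 0 (nor R r s f) x) (pd 1 (nor R r s f) x), nor R r s f x⟫ =
    s * Real.cos (x 0) / r := by
  have hg := gauss_eq hs hsr hrR hf x
  have hp := ph_pos hs hsr hrR x
  have hr : 0 < r := hs.trans hsr
  have hN : cr (pd 0 f x) (pd 1 f x) = (r * ph R s x) • nor R r s f x := by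
    unfold nor
    rw [smul_smul, mul_inv_cancel₀ (by positivity), one_smul]
  rw [dnor0 hs hsr hrR hf, dnor1 hs hsr hrR hf, cr_comb, hN, smul_smul, real_inner_smul_left,
    nor_nor hs hsr hrR hf]
  have h2 : -sL R r s f x / r ^ 2 * (-sP R r s f x / ph R s x ^ 2) -
      -sM R r s f x / ph R s x ^ 2 * (-sM R r s f x / r ^ 2) =
      (sL R r s f x * sP R r s f x - sM R r s f x ^ 2) / (r ^ 2 * ph R s x ^ 2) := by
    field_simp
  rw [h2, hg]
  field_simp

/-- the cone over the Gauss map -/
noncomputable def cone (R r s : ℝ) (f : E2 → E3) (q : E3) : E3 := (q 2) • nor R r s f (prj q)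

/-- its derivative -/
noncomputable def cone' (R r s : ℝ) (f : E2 → E3) (q : E3) : E3 →L[ℝ] E3 :=
  (q 2) • ((fderiv ℝ (nor R r s f) (prj q)).comp prj) +
    (EuclideanSpace.proj 2 : E3 →L[ℝ] ℝ).smulRight (nor R r s f (prj q))

include hs hsr hrR hf in
theorem cone_deriv (q : E3) : HasFDerivAt (cone R r s f) (cone' R r s f q) q := by
  have h1 : HasFDerivAt (nor R r s f) (fderiv ℝ (nor R r s f) (prj q)) (prj q) :=
    ((nor_contDiff hs hsr hrR hf).differentiable (by norm_num) _).hasFDerivAt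
  have h2 : HasFDerivAt (fun q => nor R r s f (prj q))
      ((fderiv ℝ (nor R r s f) (prj q)).comp prj) q := h1.comp q prj.hasFDerivAt
  have h3 : HasFDerivAt (fun q : E3 => q 2) (EuclideanSpace.proj 2 : E3 →L[ℝ] ℝ) q :=
    (EuclideanSpace.proj 2 : E3 →L[ℝ] ℝ).hasFDerivAt
  exact h3.smul h2

include hs hsr hrR hf in
theorem cone_det (q : E3) : (cone' R r s f q).det = (q 2) ^ 2 * (s * Real.cos (q 0) / r) := by
  rw [det_eq_tri]
  have e0 : cone' R r s f q (EuclideanSpace.single 0 1) = (q 2) • pd 0 (nor R r s f) (prj q) := by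
    unfold cone' pd
    simp [prj_apply]
  have e1 : cone' R r s f q (EuclideanSpace.single 1 1) = (q 2) • pd 1 (nor R r s f) (prj q) := by
    unfold cone' pd
    simp [prj_apply]
  have e2 : cone' R r s f q (EuclideanSpace.single 2 1) = nor R r s f (prj q) := by
    unfold cone'
    simp [prj_apply]
  have hcr : ∀ (c : ℝ) (a b : E3), cr (c • a) (c • b) = (c ^ 2) • cr a b := by
    intro c a b
    ext i; fin_cases i <;> simp [cr] <;> ring
  rw [e0, e1, e2, hcr, real_inner_smul_left, tri_nor hs hsr hrR hf, prj_0]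

end

end Pool.Agent.N528.Torus
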