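import Pool.Agent.N528.Torus.Final

/-! The standard torus and the nearby metrics. -/

set_option autoImplicit false

open scoped ContDiff RealInnerProductSpace Topology
open Set

namespace Pool.Agent.N528.Torus

theorem pmetric_self (R r : ℝ) : pmetric R r r = torusMetric R r := rfl

theorem posDef_diag {a b : ℝ} (ha : 0 < a) (hb : 0 < b) : (!![a, 0; 0, b]).PosDef := by
  have h : !![a, 0; 0, b] = Matrix.diagonal ![a, b] := by
    ext i j
    fin_cases i <;> fin_cases j <;> simp
  rw [h]
  refine Matrix.PosDef.diagonal fun i => ?_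
  fin_cases i
  · exact ha
  · exact hb

theorem cx0 {k : WithTop ℕ∞} : ContDiff ℝ k (fun x : Plane => x 0) :=
  (EuclideanSpace.proj 0 : Plane →L[ℝ] ℝ).contDiff
theorem cx1 {k : WithTop ℕ∞} : ContDiff ℝ k (fun x : Plane => x 1) :=
  (EuclideanSpace.proj 1 : Plane →L[ℝ] ℝ).contDiff

theorem pmetric_smooth {R r s : ℝ} (hr : 0 < r) (hs : 0 < s) (hsR : s < R) :
    IsSmoothMetric (pmetric R r s) := by
  refine ⟨fun i j => ?_, fun x i => ?_, fun x => ?_⟩
  · fin_cases i <;> fin_cases j
    · exact contDiff_const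
    · exact contDiff_const
    · exact contDiff_const
    · show ContDiff ℝ ∞ (fun x : Plane => (R + s * Real.cos (x 0)) ^ 2)
      exact (contDiff_const.add (contDiff_const.mul (Real.contDiff_cos.comp cx0))).pow 2
  · unfold pmetric
    fin_cases i
    · simp [e, Real.cos_add_two_pi]
    · simp [e]
  · apply posDef_diag (by positivity)
    have := Real.neg_one_le_cos (x 0)
    have : 0 < R + s * Real.cos (x 0) := by nlinarith
    positivity

theorem torusMap_smooth (R r : ℝ) : ContDiff ℝ ∞ (torusMap R r) := by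
  rw [contDiff_euclidean]
  intro i
  fin_cases i
  · show ContDiff ℝ ∞ (fun x : Plane => (R + r * Real.cos (x 0)) * Real.cos (x 1))
    exact (contDiff_const.add (contDiff_const.mul (Real.contDiff_cos.comp cx0))).mul
      (Real.contDiff_cos.comp cx1)
  · show ContDiff ℝ ∞ (fun x : Plane => (R + r * Real.cos (x 0)) * Real.sin (x 1))
    exact (contDiff_const.add (contDiff_const.mul (Real.contDiff_cos.comp cx0))).mul
      (Real.contDiff_sin.comp cx1)
  · show ContDiff ℝ ∞ (fun x : Plane => r * Real.sin (x 0))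
    exact contDiff_const.mul (Real.contDiff_sin.comp cx0)

theorem angle_eq {a b : ℝ} (hc : Real.cos a = Real.cos b) (hs : Real.sin a = Real.sin b) :
    ∃ n : ℤ, b = a + 2 * Real.pi * n := by
  have h : Real.cos (b - a) = 1 := by
    rw [Real.cos_sub, hc, hs]
    have := Real.sin_sq_add_cos_sq b
    nlinarith
  obtain ⟨n, hn⟩ := (Real.cos_eq_one_iff _).1 h
  exact ⟨n, by linarith⟩

theorem torusMap_embedding {R r : ℝ} (hr : 0 < r) (hR : r < R) :
    IsIsometricEmbedding ∞ (torusMetric R r) (torusMap R r) := by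
  have hsm := torusMap_smooth R r
  have hd : Differentiable ℝ (torusMap R r) := hsm.differentiable (by simp)
  have hph : ∀ t : ℝ, 0 < R + r * Real.cos t := fun t => by
    have := Real.neg_one_le_cos t
    nlinarith
  have p0 : ∀ x, (H575Germ.pd 0 (torusMap R r) x) 0 = -(r * Real.sin (x 0)) * Real.cos (x 1) ∧
      (H575Germ.pd 0 (torusMap R r) x) 1 = -(r * Real.sin (x 0)) * Real.sin (x 1) ∧
      (H575Germ.pd 0 (torusMap R r) x) 2 = r * Real.cos (x 0) := by
    intro x
    refine ⟨?_, ?_, ?_⟩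
    · rw [congrFun (pd_comp hd 0 0) x]
      exact congrFun (pd_prod0 (fun t => R + r * Real.cos t) Real.cos _ (fun t => d_phi t)
        Real.differentiable_cos) x
    · rw [congrFun (pd_comp hd 0 1) x]
      exact congrFun (pd_prod0 (fun t => R + r * Real.cos t) Real.sin _ (fun t => d_phi t)
        Real.differentiable_sin) x
    · rw [congrFun (pd_comp hd 0 2) x]
      have h := congrFun (pd_prod0 (fun t => r * Real.sin t) (fun _ => (1 : ℝ)) _
        (fun t => (Real.hasDerivAt_sin t).const_mul r) (differentiable_const _)) x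
      simp only [mul_one] at h
      exact h
  have p1 : ∀ x, (H575Germ.pd 1 (torusMap R r) x) 0 = (R + r * Real.cos (x 0)) * -Real.sin (x 1) ∧
      (H575Germ.pd 1 (torusMap R r) x) 1 = (R + r * Real.cos (x 0)) * Real.cos (x 1) ∧
      (H575Germ.pd 1 (torusMap R r) x) 2 = 0 := by
    intro x
    refine ⟨?_, ?_, ?_⟩
    · rw [congrFun (pd_comp hd 1 0) x]
      exact congrFun (pd_prod1 (fun t => R + r * Real.cos t) Real.cos _ diff_phi
        Real.hasDerivAt_cos) x
    · rw [congrFun (pd_comp hd 1 1) x]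
      exact congrFun (pd_prod1 (fun t => R + r * Real.cos t) Real.sin _ diff_phi
        Real.hasDerivAt_sin) x
    · rw [congrFun (pd_comp hd 1 2) x]
      have h := congrFun (pd_prod1 (fun t => r * Real.sin t) (fun _ => (1 : ℝ)) (fun _ => 0)
        (fun t => ((Real.hasDerivAt_sin t).const_mul r).differentiableAt)
        (fun t => hasDerivAt_const t 1)) x
      simp only [mul_one, mul_zero] at h
      exact h
  refine ⟨⟨hsm, fun x i => ?_, fun x i j => ?_⟩, fun x y hxy => ?_⟩
  · unfold torusMap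
    fin_cases i
    · simp [e, Real.cos_add_two_pi, Real.sin_add_two_pi]
    · simp [e, Real.cos_add_two_pi, Real.sin_add_two_pi]
  · obtain ⟨a0, a1, a2⟩ := p0 x
    obtain ⟨b0, b1, b2⟩ := p1 x
    have h := Real.sin_sq_add_cos_sq (x 1)
    have h' := Real.sin_sq_add_cos_sq (x 0)
    fin_cases i <;> fin_cases j
    · show ⟪H575Germ.pd 0 (torusMap R r) x, H575Germ.pd 0 (torusMap R r) x⟫ = r ^ 2
      rw [inner3, a0, a1, a2]
      linear_combination (r * Real.sin (x 0)) ^ 2 * h + r ^ 2 * h'
    · show ⟪H575Germ.pd 0 (torusMap R r) x, H575Germ.pd 1 (torusMap R r) x⟫ = 0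
      rw [inner3, a0, a1, a2, b0, b1, b2]
      ring
    · show ⟪H575Germ.pd 1 (torusMap R r) x, H575Germ.pd 0 (torusMap R r) x⟫ = 0
      rw [inner3, a0, a1, a2, b0, b1, b2]
      ring
    · show ⟪H575Germ.pd 1 (torusMap R r) x, H575Germ.pd 1 (torusMap R r) x⟫ =
        (R + r * Real.cos (x 0)) ^ 2
      rw [inner3, b0, b1, b2]
      linear_combination (R + r * Real.cos (x 0)) ^ 2 * h
  · have e0 : (R + r * Real.cos (x 0)) * Real.cos (x 1) =
        (R + r * Real.cos (y 0)) * Real.cos (y 1) := congrArg (fun v : Space => v 0) hxy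
    have e1 : (R + r * Real.cos (x 0)) * Real.sin (x 1) =
        (R + r * Real.cos (y 0)) * Real.sin (y 1) := congrArg (fun v : Space => v 1) hxy
    have e2 : r * Real.sin (x 0) = r * Real.sin (y 0) := congrArg (fun v : Space => v 2) hxy
    have hx := hph (x 0)
    have hy := hph (y 0)
    have hsq : (R + r * Real.cos (x 0)) ^ 2 = (R + r * Real.cos (y 0)) ^ 2 := by
      have h1 := Real.sin_sq_add_cos_sq (x 1)
      have h2 := Real.sin_sq_add_cos_sq (y 1)
      have h3 := congrArg (fun t => t ^ 2) e0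
      have h4 := congrArg (fun t => t ^ 2) e1
      simp only at h3 h4
      linear_combination h3 + h4 - (R + r * Real.cos (x 0)) ^ 2 * h1 +
        (R + r * Real.cos (y 0)) ^ 2 * h2
    have heq : R + r * Real.cos (x 0) = R + r * Real.cos (y 0) := by
      have := sq_eq_sq₀ hx.le hy.le
      exact this.1 hsq
    have hc0 : Real.cos (x 0) = Real.cos (y 0) := by
      have : r * Real.cos (x 0) = r * Real.cos (y 0) := by linarith
      exact mul_left_cancel₀ hr.ne' this
    have hs0 : Real.sin (x 0) = Real.sin (y 0) := mul_left_cancel₀ hr.ne' e2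
    rw [heq] at e0 e1
    have hc1 := mul_left_cancel₀ hy.ne' e0
    have hs1 := mul_left_cancel₀ hy.ne' e1
    obtain ⟨m, hm⟩ := angle_eq hc0 hs0
    obtain ⟨n, hn⟩ := angle_eq hc1 hs1
    refine ⟨m, n, ?_⟩
    ext i
    fin_cases i
    · simp [e, hm]
    · simp [e, hn]

theorem tensorNorm_diag {a b c : ℝ} (ha : 0 < a) (hb : 0 < b) :
    tensorNorm !![a, 0; 0, b] !![0, 0; 0, c] = |c| / b := by
  unfold tensorNorm
  have hinv : (!![a, 0; 0, b])⁻¹ = !![a⁻¹, 0; 0, b⁻¹] := by
    apply Matrix.inv_eq_right_inv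
    ext i j
    fin_cases i <;> fin_cases j <;> simp [Matrix.mul_apply, Fin.sum_univ_two, ha.ne', hb.ne']
  rw [hinv]
  have : Matrix.trace (!![a⁻¹, 0; 0, b⁻¹] * !![0, 0; 0, c] * !![a⁻¹, 0; 0, b⁻¹] *
      !![0, 0; 0, c]) = (c / b) ^ 2 := by
    simp [Matrix.trace, Fin.sum_univ_two]
    ring
  rw [this, Real.sqrt_sq_eq_abs, abs_div, abs_of_pos hb]

theorem pmetric_sub (R r s : ℝ) (x : Plane) : pmetric R r s x - torusMetric R r x =
    !![0, 0; 0, (s - r) * (2 * R * Real.cos (x 0) + (s + r) * Real.cos (x 0) ^ 2)] := by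
  ext i j
  fin_cases i <;> fin_cases j
  · simp [pmetric, torusMetric]
  · simp [pmetric, torusMetric]
  · simp [pmetric, torusMetric]
  · simp [pmetric, torusMetric]
    ring

/-- smooth doubly periodic functions have bounded derivatives -/
theorem bounded_iterated (u : Plane → ℝ) (hu : ContDiff ℝ ∞ u) (hp : DoublyPeriodic u) (m : ℕ) :
    ∃ C, ∀ x, ‖iteratedFDeriv ℝ m u x‖ ≤ C := by
  have hc : Continuous (fun x => ‖iteratedFDeriv ℝ m u x‖) :=
    (hu.continuous_iteratedFDeriv (by exact_mod_cast le_top)).norm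
  have hper : DoublyPeriodic (fun x => ‖iteratedFDeriv ℝ m u x‖) := by
    intro x i
    show ‖iteratedFDeriv ℝ m u (x + (2 * Real.pi) • e i)‖ = ‖iteratedFDeriv ℝ m u x‖
    rw [← iteratedFDeriv_comp_add_right]
    congr 2
    funext y
    exact hp y i
  obtain ⟨p, -, hmax⟩ := exists_max hc hper
  exact ⟨_, hmax⟩

end Pool.Agent.N528.Torus
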