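import Pool.Agent.N528.Torus.Frame

/-! Every direction is a normal at a point where the curvature is nonnegative. -/

set_option autoImplicit false

open scoped ContDiff RealInnerProductSpace Topology
open MeasureTheory Metric H575Germ Set Filter

namespace Pool.Agent.N528.Torus

theorem periodic_int {V : Type*} {F : Plane → V} (hF : DoublyPeriodic F) (x : Plane) (i : Fin 2)
    (n : ℤ) : F (x + (2 * Real.pi * n) • e i) = F x := by
  have hp : Function.Periodic (fun t : ℝ => F (x + t • e i)) (2 * Real.pi) := by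
    intro t
    show F (x + (t + 2 * Real.pi) • e i) = F (x + t • e i)
    rw [add_smul, ← add_assoc]
    exact hF _ i
  have h := hp.int_mul_eq n
  simp only [zero_smul, add_zero] at h
  rw [← h, mul_comm]

/-- the fundamental box -/
def Box : Set Plane := {x | ∀ i, |x i| ≤ Real.pi}

theorem reduce {V : Type*} {F : Plane → V} (hF : DoublyPeriodic F) (x : Plane) :
    ∃ y ∈ Box, F y = F x := by
  refine ⟨(x + (2 * Real.pi * ((-round (x 0 / (2 * Real.pi)) : ℤ) : ℝ)) • e 0) +
    (2 * Real.pi * ((-round (x 1 / (2 * Real.pi)) : ℤ) : ℝ)) • e 1, ?_, ?_⟩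
  · have key : ∀ t : ℝ, |t + 2 * Real.pi * ((-round (t / (2 * Real.pi)) : ℤ) : ℝ)| ≤ Real.pi := by
      intro t
      have h := abs_sub_round (t / (2 * Real.pi))
      have hpi := Real.pi_pos
      have : t + 2 * Real.pi * ((-round (t / (2 * Real.pi)) : ℤ) : ℝ) =
          2 * Real.pi * (t / (2 * Real.pi) - round (t / (2 * Real.pi))) := by
        push_cast
        field_simp
        ring
      rw [this, abs_mul, abs_of_pos (by positivity : (0 : ℝ) < 2 * Real.pi)]
      nlinarith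
    intro i
    fin_cases i
    · simpa [e] using key (x 0)
    · simpa [e] using key (x 1)
  · rw [periodic_int hF, periodic_int hF]

theorem isCompact_Box : IsCompact Box := by
  have h : Box = (fun x : Fin 2 → ℝ => (WithLp.toLp 2 x : Plane)) ''
      (Set.pi univ fun _ => Icc (-Real.pi) Real.pi) := by
    ext x
    constructor
    · intro hx
      exact ⟨x.ofLp, fun i _ => abs_le.1 (hx i), rfl⟩
    · rintro ⟨y, hy, rfl⟩ i
      exact abs_le.2 (hy i trivial)
  rw [h]
  refine (isCompact_univ_pi fun _ => isCompact_Icc).image ?_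
  exact PiLp.continuous_toLp 2 _

theorem exists_max {h : Plane → ℝ} (hc : Continuous h) (hp : DoublyPeriodic h) :
    ∃ p ∈ Box, ∀ x, h x ≤ h p := by
  have hne : Box.Nonempty := ⟨0, fun i => by simpa using Real.pi_pos.le⟩
  obtain ⟨p, hp1, hp2⟩ := isCompact_Box.exists_isMaxOn hne hc.continuousOn
  refine ⟨p, hp1, fun x => ?_⟩
  obtain ⟨y, hy, hyx⟩ := reduce hp x
  rw [← hyx]
  exact hp2 hy

/-- second derivative test -/
theorem second_derivative_max {φ : ℝ → ℝ} (h : ContDiff ℝ 2 φ) (hmax : ∀ t, φ t ≤ φ 0) :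
    deriv (deriv φ) 0 ≤ 0 := by
  by_contra hcon
  push Not at hcon
  have hlm : IsLocalMax φ 0 := Filter.Eventually.of_forall hmax
  have h0 : deriv φ 0 = 0 := hlm.deriv_eq_zero
  have hmin := isLocalMin_of_deriv_deriv_pos hcon h0 h.continuous.continuousAt
  have hconst : φ =ᶠ[𝓝 0] fun _ => φ 0 := by
    filter_upwards [hmin] with t ht
    exact le_antisymm (hmax t) ht
  have h1 : deriv φ =ᶠ[𝓝 0] deriv (fun _ => φ 0) := hconst.deriv
  have h2 : deriv (deriv φ) 0 = 0 := by
    rw [h1.deriv_eq]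
    simp
  linarith

theorem hess_line {f : E2 → E3} (hf : ContDiff ℝ 2 f) (u : E3) (p : E2)
    (hmax : ∀ x, ⟪f x, u⟫ ≤ ⟪f p, u⟫) (a b : ℝ) :
    a ^ 2 * ⟪pd 0 (pd 0 f) p, u⟫ + 2 * (a * b) * ⟪pd 0 (pd 1 f) p, u⟫ +
      b ^ 2 * ⟪pd 1 (pd 1 f) p, u⟫ ≤ 0 := by
  set v : E2 := a • EuclideanSpace.single 0 1 + b • EuclideanSpace.single 1 1 with hv
  set φ : ℝ → ℝ := fun t => ⟪f (p + t • v), u⟫ with hφ
  have hline : ∀ t : ℝ, HasDerivAt (fun t : ℝ => p + t • v) v t := by
    intro t
    have := ((hasDerivAt_id t).smul_const v).const_add p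
    simpa using this
  have hlc : ContDiff ℝ 2 (fun t : ℝ => p + t • v) :=
    contDiff_const.add (contDiff_id.smul contDiff_const)
  have hφ2 : ContDiff ℝ 2 φ := (hf.comp hlc).inner ℝ contDiff_const
  have hd1 : ∀ t, HasDerivAt φ ⟪fderiv ℝ f (p + t • v) v, u⟫ t := by
    intro t
    have h1 : HasFDerivAt f (fderiv ℝ f (p + t • v)) (p + t • v) :=
      (hf.differentiable (by norm_num) _).hasFDerivAt
    have h2 : HasDerivAt (fun t : ℝ => f (p + t • v)) (fderiv ℝ f (p + t • v) v) t :=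
      h1.comp_hasDerivAt t (hline t)
    have h3 := h2.inner ℝ (hasDerivAt_const t u)
    simpa using h3
  have hd1' : deriv φ = fun t => ⟪fderiv ℝ f (p + t • v) v, u⟫ := funext fun t => (hd1 t).deriv
  have hff : ContDiff ℝ 1 (fderiv ℝ f) := hf.fderiv_right (m := 1) (by norm_num)
  have hd2 : HasDerivAt (deriv φ) ⟪fderiv ℝ (fderiv ℝ f) p v v, u⟫ 0 := by
    rw [hd1']
    have h1 : HasFDerivAt (fderiv ℝ f) (fderiv ℝ (fderiv ℝ f) (p + (0 : ℝ) • v))
        (p + (0 : ℝ) • v) := (hff.differentiable (by norm_num) _).hasFDerivAt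
    have h2 : HasDerivAt (fun t : ℝ => fderiv ℝ f (p + t • v))
        (fderiv ℝ (fderiv ℝ f) (p + (0 : ℝ) • v) v) 0 := h1.comp_hasDerivAt 0 (hline 0)
    have h3 : HasDerivAt (fun t : ℝ => fderiv ℝ f (p + t • v) v)
        (fderiv ℝ (fderiv ℝ f) (p + (0 : ℝ) • v) v v) 0 := by
      have := h2.clm_apply (hasDerivAt_const 0 v)
      simpa using this
    have h4 := h3.inner ℝ (hasDerivAt_const 0 u)
    simpa using h4
  have hle := second_derivative_max hφ2 (fun t => by
    show ⟪f (p + t • v), u⟫ ≤ ⟪f (p + (0 : ℝ) • v), u⟫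
    rw [zero_smul, add_zero]
    exact hmax _)
  rw [hd2.deriv] at hle
  have hexp : fderiv ℝ (fderiv ℝ f) p v v = a ^ 2 • pd 0 (pd 0 f) p +
      (2 * (a * b)) • pd 0 (pd 1 f) p + b ^ 2 • pd 1 (pd 1 f) p := by
    have hs : pd 1 (pd 0 f) p = pd 0 (pd 1 f) p := J9677.job9677_symm hf 1 0 p
    rw [J9677.job9677_pd_pd hf] at hs
    rw [J9677.job9677_pd_pd hf, J9677.job9677_pd_pd hf 1 1]
    rw [J9677.job9677_pd_pd hf] at hs ⊢
    rw [hv]
    simp only [map_add, map_smul, add_apply, smul_apply]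
    rw [hs]
    module
  rw [hexp, inner_add_left, inner_add_left, real_inner_smul_left, real_inner_smul_left,
    real_inner_smul_left] at hle
  exact hle

theorem crit {f : E2 → E3} (hf : ContDiff ℝ 2 f) (u : E3) (p : E2)
    (hmax : ∀ x, ⟪f x, u⟫ ≤ ⟪f p, u⟫) (i : Fin 2) : ⟪pd i f p, u⟫ = 0 := by
  have hlm : IsLocalMax (fun x => ⟪f x, u⟫) p := Filter.Eventually.of_forall hmax
  have h0 := hlm.fderiv_eq_zero
  have hd : DifferentiableAt ℝ f p := hf.differentiable (by norm_num) p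
  have h := fderiv_inner_apply ℝ hd (differentiableAt_const u) (EuclideanSpace.single i 1)
  rw [h0] at h
  simp only [zero_apply, fderiv_fun_const, Pi.zero_apply, inner_zero_right, zero_add] at h
  exact h.symm

theorem det_nonneg {A B C : ℝ} (h : ∀ a b : ℝ, a ^ 2 * A + 2 * (a * b) * B + b ^ 2 * C ≤ 0) :
    A ≤ 0 ∧ 0 ≤ A * C - B ^ 2 := by
  have hA : A ≤ 0 := by have := h 1 0; linarith
  refine ⟨hA, ?_⟩
  rcases hA.lt_or_eq with h1 | h1
  · have h2 := h B (-A)
    have h3 : B ^ 2 * A + 2 * (B * -A) * B + (-A) ^ 2 * C = A * (A * C - B ^ 2) := by ring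
    rw [h3] at h2
    by_contra h4
    push Not at h4
    nlinarith [mul_pos_of_neg_of_neg h1 h4]
  · subst h1
    have hB : B = 0 := by
      by_contra hB
      have h2 := h ((1 - C) / (2 * B)) 1
      have h3 : ((1 - C) / (2 * B)) ^ 2 * 0 + 2 * ((1 - C) / (2 * B) * 1) * B + 1 ^ 2 * C = 1 := by
        field_simp
        ring
      linarith
    rw [hB]
    simp

section

variable {R r s : ℝ} (hs : 0 < s) (hsr : s < r) (hrR : r < R) {f : E2 → E3}
  (hf : IsIsometricImmersion 2 (pmetric R r s) f)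

include hs hsr hrR hf in
/-- at a maximum of the height in the direction `u` -/
theorem at_max (u : E3) (hu : ‖u‖ = 1) : ∃ p ∈ Box, ∃ σ : ℝ, (σ = 1 ∨ σ = -1) ∧
    u = σ • nor R r s f p ∧ σ * sL R r s f p ≤ 0 ∧ |p 0| ≤ Real.pi / 2 := by
  have hcont : Continuous (fun x => ⟪f x, u⟫) := hf.contDiff.continuous.inner continuous_const
  have hper : DoublyPeriodic (fun x => ⟪f x, u⟫) := by
    intro x i
    show ⟪f (x + (2 * Real.pi) • e i), u⟫ = ⟪f x, u⟫
    rw [hf.periodic x i]
  obtain ⟨p, hpB, hmax⟩ := exists_max hcont hper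
  have h0 := crit hf.contDiff u p hmax 0
  have h1 := crit hf.contDiff u p hmax 1
  rw [real_inner_comm] at h0 h1
  have hexp : ∀ w, ⟪u, w⟫ = ⟪u, nor R r s f p⟫ * ⟪w, nor R r s f p⟫ := by
    intro w
    have := expand' hs hsr hrR hf p u w
    rw [h0, h1] at this
    simpa using this
  set σ := ⟪u, nor R r s f p⟫ with hσ
  have hueq : u = σ • nor R r s f p := by
    apply ext_inner_right ℝ
    intro w
    rw [hexp w, real_inner_smul_left, real_inner_comm]
  have hσ2 : σ ^ 2 = 1 := by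
    have h2 := hexp u
    rw [real_inner_self_eq_norm_sq, hu] at h2
    rw [← hσ] at h2
    nlinarith
  have hσ1 : σ = 1 ∨ σ = -1 := by
    have h3 : (σ - 1) * (σ + 1) = 0 := by linarith
    rcases mul_eq_zero.1 h3 with h | h
    · left; linarith
    · right; linarith
  have hH : ∀ a b : ℝ, a ^ 2 * (σ * sL R r s f p) + 2 * (a * b) * (σ * sM R r s f p) +
      b ^ 2 * (σ * sP R r s f p) ≤ 0 := by
    intro a b
    have h := hess_line hf.contDiff u p hmax a b
    rw [hueq] at h
    simp only [real_inner_smul_right] at h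
    exact h
  obtain ⟨hL, hdet⟩ := det_nonneg hH
  refine ⟨p, hpB, σ, hσ1, hueq, hL, ?_⟩
  have hg := gauss_eq hs hsr hrR hf p
  have hcos : 0 ≤ Real.cos (p 0) := by
    have h4 : σ * sL R r s f p * (σ * sP R r s f p) - (σ * sM R r s f p) ^ 2 =
        σ ^ 2 * (sL R r s f p * sP R r s f p - sM R r s f p ^ 2) := by ring
    rw [h4, hσ2, one_mul, hg] at hdet
    have hph := ph_pos hs hsr hrR p
    by_contra hneg
    push Not at hneg
    have : ph R s p * (s * Real.cos (p 0)) < 0 :=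
      mul_neg_of_pos_of_neg hph (mul_neg_of_pos_of_neg hs hneg)
    linarith
  by_contra hcon
  push Not at hcon
  have hpi := hpB 0
  have h5 : Real.cos |p 0| < 0 :=
    Real.cos_neg_of_pi_div_two_lt_of_lt hcon (by linarith [Real.pi_pos])
  rw [Real.cos_abs] at h5
  linarith

include hs hsr hrR hf in
theorem sL_ne (x : E2) (hx : |x 0| < Real.pi / 2) : sL R r s f x ≠ 0 := by
  intro h0
  have hg := gauss_eq hs hsr hrR hf x
  rw [h0, zero_mul] at hg
  have hph := ph_pos hs hsr hrR x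
  have hc : 0 < Real.cos (x 0) := Real.cos_pos_of_mem_Ioo (abs_lt.1 hx)
  have : 0 < ph R s x * (s * Real.cos (x 0)) := by positivity
  nlinarith [sq_nonneg (sM R r s f x)]

include hs hsr hrR hf in
theorem sL_continuous : Continuous (sL R r s f) := by
  have h1 : Continuous (pd 0 (pd 0 f)) :=
    J9677.job9677_pd_contDiff0 (J9677.job9677_pd_contDiff hf.contDiff 0) 0
  exact h1.inner (nor_contDiff hs hsr hrR hf).continuous

include hs hsr hrR hf in
theorem sL_sign : ∃ σ₀ : ℝ, (σ₀ = 1 ∨ σ₀ = -1) ∧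
    ∀ x : E2, |x 0| < Real.pi / 2 → σ₀ * sL R r s f x < 0 := by
  have hpi := Real.pi_pos
  have hconv : Convex ℝ {x : E2 | |x 0| < Real.pi / 2} := by
    have : {x : E2 | |x 0| < Real.pi / 2} =
        (EuclideanSpace.proj 0 : E2 →L[ℝ] ℝ) ⁻¹' (Ioo (-(Real.pi / 2)) (Real.pi / 2)) := by
      ext x
      exact abs_lt (a := x 0) (b := Real.pi / 2)
    rw [this]
    exact (convex_Ioo _ _).linear_preimage (EuclideanSpace.proj 0 : E2 →L[ℝ] ℝ).toLinearMap
  have hpre := hconv.isPreconnected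
  have hc := sL_continuous hs hsr hrR hf
  have hzero : (0 : E2) ∈ {x : E2 | |x 0| < Real.pi / 2} := by
    show |(0 : E2) 0| < Real.pi / 2
    simp
    positivity
  have hne0 := sL_ne hs hsr hrR hf 0 hzero
  have key : ∀ x ∈ {x : E2 | |x 0| < Real.pi / 2}, 0 < sL R r s f 0 * sL R r s f x := by
    intro x hx
    by_contra hcon
    push Not at hcon
    have hcont : ContinuousOn (fun x => sL R r s f 0 * sL R r s f x)
        {x : E2 | |x 0| < Real.pi / 2} := (continuous_const.mul hc).continuousOn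
    have hmem : (0 : ℝ) ∈ (fun x => sL R r s f 0 * sL R r s f x) ''
        {x : E2 | |x 0| < Real.pi / 2} :=
      hpre.intermediate_value hx hzero hcont ⟨hcon, mul_self_nonneg _⟩
    obtain ⟨y, hy, hy0⟩ := hmem
    have := sL_ne hs hsr hrR hf y hy
    exact (mul_ne_zero hne0 this) hy0
  rcases lt_or_gt_of_ne hne0 with h | h
  · refine ⟨1, Or.inl rfl, fun x hx => ?_⟩
    have := key x hx
    nlinarith
  · refine ⟨-1, Or.inr rfl, fun x hx => ?_⟩
    have := key x hx
    have h2 : 0 < sL R r s f x := by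
      by_contra hcon
      push Not at hcon
      nlinarith
    linarith

include hs hsr hrR hf in
/-- the outer normal takes every value -/
theorem covering : ∃ σ₀ : ℝ, (σ₀ = 1 ∨ σ₀ = -1) ∧ ∀ u : E3, ‖u‖ = 1 → ∃ p ∈ Box,
    (|p 0| < Real.pi / 2 ∧ u = σ₀ • nor R r s f p) ∨
    (|p 0| = Real.pi / 2 ∧ (u = nor R r s f p ∨ u = -nor R r s f p)) := by
  obtain ⟨σ₀, hσ₀, hsign⟩ := sL_sign hs hsr hrR hf
  refine ⟨σ₀, hσ₀, fun u hu => ?_⟩
  obtain ⟨p, hpB, σ, hσ, hu2, hL, hp0⟩ := at_max hs hsr hrR hf u hu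
  refine ⟨p, hpB, ?_⟩
  rcases hp0.lt_or_eq with h | h
  · left
    refine ⟨h, ?_⟩
    have hlt := hsign p h
    have : σ = σ₀ := by
      rcases hσ with rfl | rfl <;> rcases hσ₀ with rfl | rfl
      · rfl
      · exfalso; linarith
      · exfalso; linarith
      · rfl
    rw [← this]
    exact hu2
  · right
    refine ⟨h, ?_⟩
    rcases hσ with rfl | rfl
    · left; rw [hu2, one_smul]
    · right; rw [hu2, neg_one_smul]

end

end Pool.Agent.N528.Torus
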