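import Mathlib

/-! Smooth metrics on the torus and their isometric immersions in Euclidean 3-space (MP_665542_gt):
definitions. -/

set_option autoImplicit false

open scoped ContDiff RealInnerProductSpace

namespace Pool.Agent.N528.Torus

/-- the Euclidean plane, the universal covering of the torus `T² = ℝ²/(2πℤ)²` -/
abbrev Plane := EuclideanSpace ℝ (Fin 2)

/-- Euclidean 3-space -/
abbrev Space := EuclideanSpace ℝ (Fin 3)

/-- the coordinate vectors of the plane -/
noncomputable abbrev e (i : Fin 2) : Plane := EuclideanSpace.single i 1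

/-- `F` is (the lift to the plane of) a map defined on the torus `T² = ℝ²/(2πℤ)²`. -/
def DoublyPeriodic {V : Type*} (F : Plane → V) : Prop :=
  ∀ (x : Plane) (i : Fin 2), F (x + (2 * Real.pi) • e i) = F x

/-- `g` is a smooth Riemannian metric on the torus, given by its matrix in the coordinates. -/
structure IsSmoothMetric (g : Plane → Matrix (Fin 2) (Fin 2) ℝ) : Prop where
  smooth : ∀ i j, ContDiff ℝ ∞ (fun x => g x i j)
  periodic : DoublyPeriodic g
  posDef : ∀ x, (g x).PosDef

/-- `f` is an isometric immersion of class `C^k` of the torus with the metric `g` into Euclidean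
3-space. -/
structure IsIsometricImmersion (k : WithTop ℕ∞) (g : Plane → Matrix (Fin 2) (Fin 2) ℝ)
    (f : Plane → Space) : Prop where
  contDiff : ContDiff ℝ k f
  periodic : DoublyPeriodic f
  isometric : ∀ x i j, ⟪fderiv ℝ f x (e i), fderiv ℝ f x (e j)⟫ = g x i j

/-- `f` is an isometric embedding of class `C^k` of the torus with the metric `g` into Euclidean
3-space: an isometric immersion which is injective on the torus. -/
structure IsIsometricEmbedding (k : WithTop ℕ∞) (g : Plane → Matrix (Fin 2) (Fin 2) ℝ)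
    (f : Plane → Space) : Prop extends IsIsometricImmersion k g f where
  injective : ∀ x y, f x = f y →
    ∃ m n : ℤ, y = x + (2 * Real.pi * m) • e 0 + (2 * Real.pi * n) • e 1

/-- the norm `|h|_G = √ (∑ G^{ia} G^{jb} h_{ij} h_{ab})` of a symmetric form `h` with respect to a
positive definite one `G` -/
noncomputable def tensorNorm (G h : Matrix (Fin 2) (Fin 2) ℝ) : ℝ :=
  √(Matrix.trace (G⁻¹ * h * G⁻¹ * h))

/-- the `C^0` distance of `g` to `g₀`, that is `sup_x |g - g₀|_{g₀}(x)`, is less than `ε` -/
def C0Close (ε : ℝ) (g₀ g : Plane → Matrix (Fin 2) (Fin 2) ℝ) : Prop :=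
  ∃ δ < ε, ∀ x, tensorNorm (g₀ x) (g x - g₀ x) ≤ δ

/-- the partial derivatives of order at most `k` of the components of `g - g₀` are less than `ε` -/
def CkClose (k : ℕ) (ε : ℝ) (g₀ g : Plane → Matrix (Fin 2) (Fin 2) ℝ) : Prop :=
  ∀ m ≤ k, ∀ i j x, ‖iteratedFDeriv ℝ m (fun y => g y i j - g₀ y i j) x‖ < ε

/-- the standard torus of revolution -/
noncomputable def torusMap (R r : ℝ) (x : Plane) : Space :=
  !₂[(R + r * Real.cos (x 0)) * Real.cos (x 1), (R + r * Real.cos (x 0)) * Real.sin (x 1),
    r * Real.sin (x 0)]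

/-- its metric `r² dx² + (R + r cos x)² dy²` -/
noncomputable def torusMetric (R r : ℝ) (x : Plane) : Matrix (Fin 2) (Fin 2) ℝ :=
  !![r ^ 2, 0; 0, (R + r * Real.cos (x 0)) ^ 2]

end Pool.Agent.N528.Torus
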