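import Pool.Agent.N528.Torus.Area

/-! The contradiction. -/

set_option autoImplicit false

open scoped ContDiff RealInnerProductSpace Topology ENNReal
open MeasureTheory Metric H575Germ Set

namespace Pool.Agent.N528.Torus

/-- the domain of integration -/
def Dom : Set E3 := {q | |q 0| < Real.pi / 2 ∧ |q 1| ≤ Real.pi ∧ 0 < q 2 ∧ q 2 < 1}

theorem meas_coord (i : Fin 3) : Measurable (fun q : E3 => q i) :=
  (EuclideanSpace.proj i : E3 →L[ℝ] ℝ).continuous.measurable

theorem meas_Dom : MeasurableSet Dom := by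
  have h0 := (meas_coord 0).abs
  have h1 := (meas_coord 1).abs
  exact (measurableSet_lt h0 measurable_const).inter
    ((measurableSet_le h1 measurable_const).inter
      ((measurableSet_lt measurable_const (meas_coord 2)).inter
        (measurableSet_lt (meas_coord 2) measurable_const)))

/-- the one-dimensional factors -/
noncomputable def fac (c : ℝ) (i : Fin 3) : ℝ → ℝ :=
  match i with
  | 0 => (Ioc (-(Real.pi / 2)) (Real.pi / 2)).indicator (fun t => c * Real.cos t)
  | 1 => (Icc (-Real.pi) Real.pi).indicator (fun _ => 1)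
  | 2 => (Ioc (0 : ℝ) 1).indicator (fun t => t ^ 2)

theorem fac_integrable (c : ℝ) (i : Fin 3) : Integrable (fac c i) := by
  fin_cases i
  · show Integrable ((Ioc (-(Real.pi / 2)) (Real.pi / 2)).indicator (fun t => c * Real.cos t))
    rw [integrable_indicator_iff measurableSet_Ioc]
    exact (Continuous.integrableOn_Ioc (by fun_prop))
  · show Integrable ((Icc (-Real.pi) Real.pi).indicator (fun _ => (1 : ℝ)))
    rw [integrable_indicator_iff measurableSet_Icc]
    exact (continuous_const.integrableOn_Icc)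
  · show Integrable ((Ioc (0 : ℝ) 1).indicator (fun t => t ^ 2))
    rw [integrable_indicator_iff measurableSet_Ioc]
    exact (Continuous.integrableOn_Ioc (by fun_prop))

theorem fac_integral (c : ℝ) : ∏ i : Fin 3, ∫ t, fac c i t = c * (Real.pi * 4 / 3) := by
  rw [Fin.prod_univ_three]
  have hpi := Real.pi_pos
  have h0 : ∫ t, fac c 0 t = c * 2 := by
    show ∫ t, (Ioc (-(Real.pi / 2)) (Real.pi / 2)).indicator (fun t => c * Real.cos t) t = _
    rw [integral_indicator measurableSet_Ioc,
      ← intervalIntegral.integral_of_le (by linarith), intervalIntegral.integral_const_mul,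
      integral_cos]
    simp
    left
    norm_num
  have h1 : ∫ t, fac c 1 t = 2 * Real.pi := by
    show ∫ t, (Icc (-Real.pi) Real.pi).indicator (fun _ => (1 : ℝ)) t = _
    rw [integral_indicator measurableSet_Icc]
    simp
    rw [max_eq_left (by linarith)]
    ring
  have h2 : ∫ t, fac c 2 t = 1 / 3 := by
    show ∫ t, (Ioc (0 : ℝ) 1).indicator (fun t => t ^ 2) t = _
    rw [integral_indicator measurableSet_Ioc, ← intervalIntegral.integral_of_le (by norm_num),
      integral_pow]
    norm_num
  rw [h0, h1, h2]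
  ring

theorem fac_nonneg {c : ℝ} (hc : 0 ≤ c) (y : Fin 3 → ℝ) : 0 ≤ ∏ i, fac c i (y i) := by
  apply Finset.prod_nonneg
  intro i _
  fin_cases i
  · show 0 ≤ (Ioc (-(Real.pi / 2)) (Real.pi / 2)).indicator (fun t => c * Real.cos t) (y 0)
    apply indicator_nonneg
    intro t ht
    exact mul_nonneg hc (Real.cos_nonneg_of_mem_Icc ⟨ht.1.le, ht.2⟩)
  · show 0 ≤ (Icc (-Real.pi) Real.pi).indicator (fun _ => (1 : ℝ)) (y 1)
    apply indicator_nonneg
    intro t ht
    exact zero_le_one
  · show 0 ≤ (Ioc (0 : ℝ) 1).indicator (fun t => t ^ 2) (y 2)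
    apply indicator_nonneg
    intro t ht
    positivity

theorem lint_le {c : ℝ} (hc : 0 ≤ c) :
    ∫⁻ q in Dom, ENNReal.ofReal |(q 2) ^ 2 * (c * Real.cos (q 0))| ≤
      ENNReal.ofReal (c * (Real.pi * 4 / 3)) := by
  have h1 : ∫⁻ q in Dom, ENNReal.ofReal |(q 2) ^ 2 * (c * Real.cos (q 0))| ≤
      ∫⁻ q : E3, ENNReal.ofReal (∏ i, fac c i (q i)) := by
    rw [← lintegral_indicator meas_Dom]
    apply lintegral_mono
    intro q
    by_cases hq : q ∈ Dom
    · rw [indicator_of_mem hq]
      obtain ⟨a0, a1, a2, a3⟩ := hq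
      have hc0 : 0 ≤ Real.cos (q 0) :=
        Real.cos_nonneg_of_mem_Icc ⟨(abs_lt.1 a0).1.le, (abs_lt.1 a0).2.le⟩
      show ENNReal.ofReal |q 2 ^ 2 * (c * Real.cos (q 0))| ≤ ENNReal.ofReal (∏ i, fac c i (q i))
      rw [Fin.prod_univ_three]
      have f0 : fac c 0 (q 0) = c * Real.cos (q 0) :=
        indicator_of_mem (s := Ioc (-(Real.pi / 2)) (Real.pi / 2))
          ⟨(abs_lt.1 a0).1, (abs_lt.1 a0).2.le⟩ (fun t => c * Real.cos t)
      have f1 : fac c 1 (q 1) = 1 :=
        indicator_of_mem (s := Icc (-Real.pi) Real.pi) (abs_le.1 a1) (fun _ => (1 : ℝ))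
      have f2 : fac c 2 (q 2) = (q 2) ^ 2 :=
        indicator_of_mem (s := Ioc (0 : ℝ) 1) ⟨a2, a3.le⟩ (fun t => t ^ 2)
      rw [f0, f1, f2, abs_of_nonneg (by positivity)]
      apply le_of_eq
      congr 1
      ring
    · rw [indicator_of_notMem hq]
      exact zero_le
  refine h1.trans ?_
  have h2 : ∫⁻ q : E3, ENNReal.ofReal (∏ i, fac c i (q i)) =
      ∫⁻ y : Fin 3 → ℝ, ENNReal.ofReal (∏ i, fac c i (y i)) := by
    have hmp := EuclideanSpace.volume_preserving_symm_measurableEquiv_toLp (Fin 3)
    exact hmp.lintegral_comp_emb (MeasurableEquiv.measurableEmbedding _)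
      (fun y : Fin 3 → ℝ => ENNReal.ofReal (∏ i, fac c i (y i)))
  rw [h2]
  have hint : Integrable (fun y : Fin 3 → ℝ => ∏ i, fac c i (y i)) := by
    have := Integrable.fintype_prod (μ := fun _ : Fin 3 => (volume : Measure ℝ))
      (f := fac c) (fun i => fac_integrable c i)
    exact this
  rw [← ofReal_integral_eq_lintegral_ofReal hint
    (Filter.Eventually.of_forall fun y => fac_nonneg hc y)]
  rw [integral_fintype_prod_volume_eq_prod (fun i => fac c i), fac_integral]

section

variable {R r s : ℝ} (hs : 0 < s) (hsr : s < r) (hrR : r < R) {f : E2 → E3}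
  (hf : IsIsometricImmersion 2 (pmetric R r s) f)

/-- the boundary part -/
def Bd : Set E3 := {q | |q 0| = Real.pi / 2}

theorem meas_Bd : MeasurableSet Bd :=
  measurableSet_eq_fun (meas_coord 0).abs measurable_const

include hs hsr hrR hf in
theorem vol_cone_Dom : volume (cone R r s f '' Dom) ≤ ENNReal.ofReal (s / r * (Real.pi * 4 / 3)) := by
  have h := addHaar_image_le_lintegral_abs_det_fderiv volume meas_Dom
    (fun q _ => (cone_deriv hs hsr hrR hf q).hasFDerivWithinAt)
  refine h.trans ?_
  have hr : 0 < r := hs.trans hsr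
  have h2 := lint_le (c := s / r) (by positivity)
  refine le_trans (le_of_eq ?_) h2
  apply lintegral_congr
  intro q
  rw [cone_det hs hsr hrR hf]
  congr 2
  ring

include hs hsr hrR hf in
theorem vol_cone_Bd : volume (cone R r s f '' Bd) = 0 := by
  have h := addHaar_image_le_lintegral_abs_det_fderiv volume meas_Bd
    (fun q _ => (cone_deriv hs hsr hrR hf q).hasFDerivWithinAt)
  apply le_antisymm _ zero_le
  refine h.trans ?_
  apply le_of_eq
  rw [setLIntegral_congr_fun (g := fun _ => 0) meas_Bd]
  · simp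
  · intro q hq
    have hq' : |q 0| = Real.pi / 2 := hq
    have hc : Real.cos (q 0) = 0 := by
      rw [← Real.cos_abs, hq', Real.cos_pi_div_two]
    show ENNReal.ofReal |(cone' R r s f q).det| = 0
    rw [cone_det hs hsr hrR hf, hc]
    simp

include hs hsr hrR hf in
theorem no_immersion : False := by
  obtain ⟨σ₀, hσ₀, hcov⟩ := covering hs hsr hrR hf
  have hr : 0 < r := hs.trans hsr
  have hsub : ball (0 : E3) 1 ⊆ ((σ₀ • ·) '' (cone R r s f '' Dom)) ∪
      ((cone R r s f '' Bd) ∪ ((fun v => -v) '' (cone R r s f '' Bd))) ∪ {0} := by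
    intro v hv
    rw [mem_ball_zero_iff] at hv
    by_cases hv0 : v = 0
    · right; exact hv0
    left
    have hvn : 0 < ‖v‖ := norm_pos_iff.2 hv0
    obtain ⟨p, hpB, hp⟩ := hcov (‖v‖⁻¹ • v) (by
      rw [norm_smul, norm_inv, norm_norm, inv_mul_cancel₀ hvn.ne'])
    have hvu : v = ‖v‖ • (‖v‖⁻¹ • v) := by
      rw [smul_smul, mul_inv_cancel₀ hvn.ne', one_smul]
    set q : E3 := !₂[p 0, p 1, ‖v‖] with hq
    have hq0 : q 0 = p 0 := rfl
    have hq1 : q 1 = p 1 := rfl
    have hq2 : q 2 = ‖v‖ := rfl
    have hprj : prj q = p := by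
      ext i
      fin_cases i
      · exact prj_0 q
      · exact prj_1 q
    have hcone : cone R r s f q = ‖v‖ • nor R r s f p := by
      unfold cone
      rw [hprj, hq2]
    rcases hp with ⟨h0, hu⟩ | ⟨h0, hu⟩
    · left
      refine ⟨cone R r s f q, ⟨q, ⟨by rw [hq0]; exact h0, by rw [hq1]; exact hpB 1,
        by rw [hq2]; exact hvn, by rw [hq2]; exact hv⟩, rfl⟩, ?_⟩
      show σ₀ • cone R r s f q = v
      rw [hcone, smul_comm, ← hu, ← hvu]
    · right
      rcases hu with hu | hu
      · left
        refine ⟨q, by show |q 0| = _; rw [hq0]; exact h0, ?_⟩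
        rw [hcone, ← hu, ← hvu]
      · right
        refine ⟨cone R r s f q, ⟨q, by show |q 0| = _; rw [hq0]; exact h0, rfl⟩, ?_⟩
        show -cone R r s f q = v
        rw [hcone, ← smul_neg, ← hu, ← hvu]
  have hvol : volume (ball (0 : E3) 1) ≤ ENNReal.ofReal (s / r * (Real.pi * 4 / 3)) := by
    refine (measure_mono hsub).trans ?_
    have hneg : volume ((fun v : E3 => -v) '' (cone R r s f '' Bd)) = 0 := by
      have : (fun v : E3 => -v) '' (cone R r s f '' Bd) = -(cone R r s f '' Bd) :=
        Set.image_neg_eq_neg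
      rw [this, Measure.measure_neg, vol_cone_Bd hs hsr hrR hf]
    have hσ : volume ((σ₀ • ·) '' (cone R r s f '' Dom)) = volume (cone R r s f '' Dom) := by
      rcases hσ₀ with rfl | rfl
      · simp
      · have : ((fun v : E3 => (-1 : ℝ) • v) '' (cone R r s f '' Dom)) =
            -(cone R r s f '' Dom) := by
          simp only [neg_smul, one_smul]
          exact Set.image_neg_eq_neg
        show volume ((fun v : E3 => (-1 : ℝ) • v) '' (cone R r s f '' Dom)) = _
        rw [this, Measure.measure_neg]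
    calc volume ((((σ₀ • ·) '' (cone R r s f '' Dom)) ∪
        ((cone R r s f '' Bd) ∪ ((fun v => -v) '' (cone R r s f '' Bd)))) ∪ {0})
        ≤ volume ((σ₀ • ·) '' (cone R r s f '' Dom)) + (volume (cone R r s f '' Bd) +
          volume ((fun v : E3 => -v) '' (cone R r s f '' Bd))) + volume ({0} : Set E3) := by
          refine (measure_union_le _ _).trans ?_
          gcongr
          refine (measure_union_le _ _).trans ?_
          gcongr
          exact measure_union_le _ _
      _ = volume (cone R r s f '' Dom) := by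
          rw [hσ, hneg, vol_cone_Bd hs hsr hrR hf]
          simp
      _ ≤ _ := vol_cone_Dom hs hsr hrR hf
  rw [EuclideanSpace.volume_ball_fin_three] at hvol
  simp only [ENNReal.ofReal_one, one_pow, one_mul] at hvol
  have hpi := Real.pi_pos
  rw [ENNReal.ofReal_le_ofReal_iff (by positivity)] at hvol
  have h1 : s / r < 1 := (div_lt_one hr).2 hsr
  nlinarith

end

end Pool.Agent.N528.Torus
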