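import Pool.Agent.N528.Torus.Geo

/-! The unit normal and the Gauss equation. -/

set_option autoImplicit false

open scoped ContDiff RealInnerProductSpace
open MeasureTheory Metric H575Germ

namespace Pool.Agent.N528.Torus

/-- the cross product -/
noncomputable def cr (a b : E3) : E3 :=
  !₂[a 1 * b 2 - a 2 * b 1, a 2 * b 0 - a 0 * b 2, a 0 * b 1 - a 1 * b 0]

theorem cr0 (a b : E3) : (cr a b) 0 = a 1 * b 2 - a 2 * b 1 := rfl
theorem cr1 (a b : E3) : (cr a b) 1 = a 2 * b 0 - a 0 * b 2 := rfl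
theorem cr2 (a b : E3) : (cr a b) 2 = a 0 * b 1 - a 1 * b 0 := rfl

theorem cr_inner_left (a b : E3) : ⟪cr a b, a⟫ = 0 := by
  rw [inner3, cr0, cr1, cr2]; ring

theorem cr_inner_right (a b : E3) : ⟪cr a b, b⟫ = 0 := by
  rw [inner3, cr0, cr1, cr2]; ring

theorem cr_norm (a b : E3) : ⟪cr a b, cr a b⟫ = ⟪a, a⟫ * ⟪b, b⟫ - ⟪a, b⟫ ^ 2 := by
  simp only [inner3, cr0, cr1, cr2]; ring

theorem expand (a b v w : E3) (hab : ⟪a, b⟫ = 0) :
    ⟪a, a⟫ * ⟪b, b⟫ * ⟪v, w⟫ = ⟪b, b⟫ * (⟪v, a⟫ * ⟪w, a⟫) + ⟪a, a⟫ * (⟪v, b⟫ * ⟪w, b⟫) +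
      ⟪v, cr a b⟫ * ⟪w, cr a b⟫ := by
  have key : ⟪v, cr a b⟫ * ⟪w, cr a b⟫ =
      ⟪v, w⟫ * (⟪a, a⟫ * ⟪b, b⟫ - ⟪a, b⟫ ^ 2) -
      ⟪v, a⟫ * (⟪w, a⟫ * ⟪b, b⟫ - ⟪w, b⟫ * ⟪a, b⟫) +
      ⟪v, b⟫ * (⟪w, a⟫ * ⟪a, b⟫ - ⟪w, b⟫ * ⟪a, a⟫) := by
    simp only [inner3, cr0, cr1, cr2]; ring
  rw [key, hab]
  ring

section

variable {R r s : ℝ} (hs : 0 < s) (hsr : s < r) (hrR : r < R) {f : E2 → E3}
  (hf : IsIsometricImmersion 2 (pmetric R r s) f)

/-- the radius `R + s cos x` -/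
noncomputable def ph (R s : ℝ) (x : E2) : ℝ := R + s * Real.cos (x 0)

include hs hsr hrR in
theorem ph_pos (x : E2) : 0 < ph R s x := by
  unfold ph
  have := Real.neg_one_le_cos (x 0)
  nlinarith

include hf in
theorem met (x : E2) (i j : Fin 2) : ⟪pd i f x, pd j f x⟫ = pmetric R r s x i j :=
  hf.isometric x i j

include hf in
theorem met00 (x : E2) : ⟪pd 0 f x, pd 0 f x⟫ = r ^ 2 := met hf x 0 0
include hf in
theorem met01 (x : E2) : ⟪pd 0 f x, pd 1 f x⟫ = 0 := met hf x 0 1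
include hf in
theorem met10 (x : E2) : ⟪pd 1 f x, pd 0 f x⟫ = 0 := met hf x 1 0
include hf in
theorem met11 (x : E2) : ⟪pd 1 f x, pd 1 f x⟫ = (ph R s x) ^ 2 := met hf x 1 1

include hf in
theorem s00_0 (x : E2) : ⟪pd 0 (pd 0 f) x, pd 0 f x⟫ = 0 := by
  have h := J9677.job9677_dinner hf.contDiff 0 0 0 x
  have h2 : (fun y => ⟪pd 0 f y, pd 0 f y⟫) = fun _ => r ^ 2 := funext fun y => met00 hf y
  rw [h2] at h
  have h3 : pd 0 (fun _ : E2 => r ^ 2) x = 0 := by simp [pd]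
  rw [h3] at h
  linarith

include hf in
theorem s10_0 (x : E2) : ⟪pd 1 (pd 0 f) x, pd 0 f x⟫ = 0 := by
  have h := J9677.job9677_dinner hf.contDiff 1 0 0 x
  have h2 : (fun y => ⟪pd 0 f y, pd 0 f y⟫) = fun _ => r ^ 2 := funext fun y => met00 hf y
  rw [h2] at h
  have h3 : pd 1 (fun _ : E2 => r ^ 2) x = 0 := by simp [pd]
  rw [h3] at h
  linarith

include hf in
theorem s01_0 (x : E2) : ⟪pd 0 (pd 1 f) x, pd 0 f x⟫ = 0 := by
  rw [J9677.job9677_symm hf.contDiff 0 1 x]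
  exact s10_0 hf x

include hf in
theorem s00_1 (x : E2) : ⟪pd 0 (pd 0 f) x, pd 1 f x⟫ = 0 := by
  have h := J9677.job9677_dinner hf.contDiff 0 0 1 x
  have h2 : (fun y => ⟪pd 0 f y, pd 1 f y⟫) = fun _ => 0 := funext fun y => met01 hf y
  rw [h2, s01_0 hf x] at h
  have h3 : pd 0 (fun _ : E2 => (0 : ℝ)) x = 0 := by simp [pd]
  rw [h3] at h
  linarith

theorem pd0_phsq (x : E2) :
    pd 0 (fun y : E2 => (ph R s y) ^ 2) x = 2 * ph R s x * -(s * Real.sin (x 0)) := by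
  have ha : ∀ t : ℝ, HasDerivAt (fun t => (R + s * Real.cos t) ^ 2)
      (2 * (R + s * Real.cos t) * -(s * Real.sin t)) t := fun t => by
    have h : HasDerivAt (fun t => (R + s * Real.cos t) ^ 2) _ t :=
      (d_phi (R := R) (s := s) t).pow 2
    simpa using h
  have h := congrFun (pd_prod0 (fun t => (R + s * Real.cos t) ^ 2) (fun _ => (1 : ℝ)) _ ha
    (differentiable_const _)) x
  simp only [mul_one] at h
  exact h

include hf in
theorem s01_1 (x : E2) : ⟪pd 0 (pd 1 f) x, pd 1 f x⟫ = ph R s x * -(s * Real.sin (x 0)) := by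
  have h := J9677.job9677_dinner hf.contDiff 0 1 1 x
  have h2 : (fun y => ⟪pd 1 f y, pd 1 f y⟫) = fun y => (ph R s y) ^ 2 :=
    funext fun y => met11 hf y
  rw [h2, pd0_phsq] at h
  linarith

include hs hsr hf in
theorem gauss_f (x : E2) :
    ⟪pd 0 (pd 0 f) x, pd 1 (pd 1 f) x⟫ - ⟪pd 0 (pd 1 f) x, pd 0 (pd 1 f) x⟫ =
      ph R s x * (s * Real.cos (x 0)) - (s * Real.sin (x 0)) ^ 2 := by
  have h := J9677.gauss_C2 J9676.null_lagrangian f (model R r s) hf.contDiff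
    (model_contDiff hs hsr) x 1 (fun y _ i j => by rw [met hf, model_metric hs hsr]) x
    (mem_ball_self one_pos)
  rw [h]
  exact model_gauss hs hsr x

/-- the unit normal -/
noncomputable def nor (R r s : ℝ) (f : E2 → E3) (x : E2) : E3 :=
  (r * ph R s x)⁻¹ • cr (pd 0 f x) (pd 1 f x)

include hs hsr hrR hf in
theorem nor_contDiff : ContDiff ℝ 1 (nor R r s f) := by
  have h0 : ContDiff ℝ 1 (pd 0 f) := J9677.job9677_pd_contDiff hf.contDiff 0
  have h1 : ContDiff ℝ 1 (pd 1 f) := J9677.job9677_pd_contDiff hf.contDiff 1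
  have hc0 : ∀ c, ContDiff ℝ 1 (fun x => (pd 0 f x) c) := contDiff_euclidean.1 h0
  have hc1 : ∀ c, ContDiff ℝ 1 (fun x => (pd 1 f x) c) := contDiff_euclidean.1 h1
  have hx0 : ContDiff ℝ 1 (fun x : E2 => x 0) := (EuclideanSpace.proj 0 : E2 →L[ℝ] ℝ).contDiff
  have hph : ContDiff ℝ 1 (fun x : E2 => (r * ph R s x)⁻¹) := by
    refine ContDiff.inv ?_ fun x => ?_
    · exact contDiff_const.mul (contDiff_const.add (contDiff_const.mul
        (Real.contDiff_cos.comp hx0)))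
    · have := ph_pos hs hsr hrR x
      have : 0 < r := hs.trans hsr
      positivity
  unfold nor
  refine hph.smul ?_
  rw [contDiff_euclidean]
  intro i
  fin_cases i
  · exact ((hc0 1).mul (hc1 2)).sub ((hc0 2).mul (hc1 1))
  · exact ((hc0 2).mul (hc1 0)).sub ((hc0 0).mul (hc1 2))
  · exact ((hc0 0).mul (hc1 1)).sub ((hc0 1).mul (hc1 0))

include hs hsr hrR in
theorem rph_pos (x : E2) : 0 < r * ph R s x :=
  mul_pos (hs.trans hsr) (ph_pos hs hsr hrR x)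

include hs hsr hrR hf in
theorem nor_nor (x : E2) : ⟪nor R r s f x, nor R r s f x⟫ = 1 := by
  have h := cr_norm (pd 0 f x) (pd 1 f x)
  rw [met00 hf, met11 hf, met01 hf] at h
  have hp := rph_pos hs hsr hrR x
  unfold nor
  rw [real_inner_smul_left, real_inner_smul_right, h]
  have h1 : r ≠ 0 := (hs.trans hsr).ne'
  have h2 : ph R s x ≠ 0 := (ph_pos hs hsr hrR x).ne'
  field_simp
  ring

theorem nor_0 (x : E2) : ⟪nor R r s f x, pd 0 f x⟫ = 0 := by
  unfold nor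
  rw [real_inner_smul_left, cr_inner_left, mul_zero]

theorem nor_1 (x : E2) : ⟪nor R r s f x, pd 1 f x⟫ = 0 := by
  unfold nor
  rw [real_inner_smul_left, cr_inner_right, mul_zero]

include hs hsr hrR hf in
/-- expansion of the inner product in the frame -/
theorem expand' (x : E2) (v w : E3) :
    ⟪v, w⟫ = ⟪v, pd 0 f x⟫ * ⟪w, pd 0 f x⟫ / r ^ 2 +
      ⟪v, pd 1 f x⟫ * ⟪w, pd 1 f x⟫ / (ph R s x) ^ 2 +
      ⟪v, nor R r s f x⟫ * ⟪w, nor R r s f x⟫ := by
  have h := expand (pd 0 f x) (pd 1 f x) v w (met01 hf x)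
  rw [met00 hf, met11 hf] at h
  have hp := ph_pos hs hsr hrR x
  have hr : 0 < r := hs.trans hsr
  unfold nor
  rw [real_inner_smul_right, real_inner_smul_right]
  field_simp
  linarith

/-- the coefficients of the second fundamental form -/
noncomputable def sL (R r s : ℝ) (f : E2 → E3) (x : E2) : ℝ := ⟪pd 0 (pd 0 f) x, nor R r s f x⟫
noncomputable def sM (R r s : ℝ) (f : E2 → E3) (x : E2) : ℝ := ⟪pd 0 (pd 1 f) x, nor R r s f x⟫
noncomputable def sP (R r s : ℝ) (f : E2 → E3) (x : E2) : ℝ := ⟪pd 1 (pd 1 f) x, nor R r s f x⟫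

include hs hsr hrR hf in
/-- the Gauss equation -/
theorem gauss_eq (x : E2) :
    sL R r s f x * sP R r s f x - sM R r s f x ^ 2 = ph R s x * (s * Real.cos (x 0)) := by
  have h := gauss_f hs hsr hf x
  have e1 := expand' hs hsr hrR hf x (pd 0 (pd 0 f) x) (pd 1 (pd 1 f) x)
  have e2 := expand' hs hsr hrR hf x (pd 0 (pd 1 f) x) (pd 0 (pd 1 f) x)
  rw [s00_0 hf, s00_1 hf] at e1
  rw [s01_0 hf, s01_1 hf] at e2
  have hp := ph_pos hs hsr hrR x
  have e3 : ph R s x * -(s * Real.sin (x 0)) * (ph R s x * -(s * Real.sin (x 0))) /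
      ph R s x ^ 2 = (s * Real.sin (x 0)) ^ 2 := by
    field_simp
  rw [e3] at e2
  rw [e1, e2] at h
  unfold sL sM sP
  simp only [zero_mul, zero_div, zero_add] at h
  linear_combination h

include hs hsr hrR hf in
theorem dnor_nor (i : Fin 2) (x : E2) : ⟪pd i (nor R r s f) x, nor R r s f x⟫ = 0 := by
  have hN := nor_contDiff hs hsr hrR hf
  have hd : DifferentiableAt ℝ (nor R r s f) x := hN.differentiable (by norm_num) x
  have h := fderiv_inner_apply ℝ hd hd (EuclideanSpace.single i 1)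
  have h2 : (fun y => ⟪nor R r s f y, nor R r s f y⟫) = fun _ => (1 : ℝ) :=
    funext fun y => nor_nor hs hsr hrR hf y
  rw [h2] at h
  simp only [fderiv_fun_const, Pi.zero_apply, zero_apply] at h
  rw [real_inner_comm] at h
  have h' : (0 : ℝ) = ⟪pd i (nor R r s f) x, nor R r s f x⟫ +
    ⟪pd i (nor R r s f) x, nor R r s f x⟫ := h
  linarith

include hs hsr hrR hf in
theorem dnor_pd (i j : Fin 2) (x : E2) :
    ⟪pd i (nor R r s f) x, pd j f x⟫ = -⟪pd i (pd j f) x, nor R r s f x⟫ := by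
  have hN := nor_contDiff hs hsr hrR hf
  have hd : DifferentiableAt ℝ (nor R r s f) x := hN.differentiable (by norm_num) x
  have hd1 : DifferentiableAt ℝ (pd j f) x :=
    (J9677.job9677_pd_contDiff hf.contDiff j).differentiable (by norm_num) x
  have h := fderiv_inner_apply ℝ hd hd1 (EuclideanSpace.single i 1)
  have h2 : (fun y => ⟪nor R r s f y, pd j f y⟫) = fun _ => (0 : ℝ) := by
    funext y
    fin_cases j
    · exact nor_0 y
    · exact nor_1 y
  rw [h2] at h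
  simp only [fderiv_fun_const, Pi.zero_apply, zero_apply] at h
  have h' : (0 : ℝ) = ⟪nor R r s f x, pd i (pd j f) x⟫ + ⟪pd i (nor R r s f) x, pd j f x⟫ := h
  rw [real_inner_comm] at h'
  linarith

end

end Pool.Agent.N528.Torus
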