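import Pool.Agent.N528.Torus.Defs
import Pool.Agent.Helper575.Germ.J9676
import Pool.Agent.Helper575.Germ.J9677

/-! Local geometry of a `C²` immersion with the metric `r² dx² + (R + s cos x)² dy²`. -/

set_option autoImplicit false

open scoped ContDiff RealInnerProductSpace
open MeasureTheory Metric H575Germ

namespace Pool.Agent.N528.Torus

/-- the perturbed metric -/
noncomputable def pmetric (R r s : ℝ) (x : Plane) : Matrix (Fin 2) (Fin 2) ℝ :=
  !![r ^ 2, 0; 0, (R + s * Real.cos (x 0)) ^ 2]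

theorem hasFDerivAt_coord (i : Fin 2) (x : E2) :
    HasFDerivAt (fun y : E2 => y i) (EuclideanSpace.proj i : E2 →L[ℝ] ℝ) x :=
  (EuclideanSpace.proj i : E2 →L[ℝ] ℝ).hasFDerivAt

theorem pd_prod0 (a b : ℝ → ℝ) (a' : ℝ → ℝ) (ha : ∀ t, HasDerivAt a (a' t) t)
    (hb : Differentiable ℝ b) :
    pd 0 (fun x : E2 => a (x 0) * b (x 1)) = fun x => a' (x 0) * b (x 1) := by
  funext x
  have h1 : HasFDerivAt (fun y : E2 => a (y 0)) (a' (x 0) • (EuclideanSpace.proj 0 : E2 →L[ℝ] ℝ)) x :=
    (ha (x 0)).comp_hasFDerivAt x (hasFDerivAt_coord 0 x)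
  have h2 : HasFDerivAt (fun y : E2 => b (y 1))
      (deriv b (x 1) • (EuclideanSpace.proj 1 : E2 →L[ℝ] ℝ)) x :=
    (hb (x 1)).hasDerivAt.comp_hasFDerivAt x (hasFDerivAt_coord 1 x)
  have h3 : HasFDerivAt (fun y : E2 => a (y 0) * b (y 1)) _ x := h1.mul h2
  unfold pd
  rw [h3.fderiv]
  simp
  ring

theorem pd_prod1 (a b : ℝ → ℝ) (b' : ℝ → ℝ) (ha : Differentiable ℝ a)
    (hb : ∀ t, HasDerivAt b (b' t) t) :
    pd 1 (fun x : E2 => a (x 0) * b (x 1)) = fun x => a (x 0) * b' (x 1) := by
  funext x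
  have h1 : HasFDerivAt (fun y : E2 => a (y 0))
      (deriv a (x 0) • (EuclideanSpace.proj 0 : E2 →L[ℝ] ℝ)) x :=
    (ha (x 0)).hasDerivAt.comp_hasFDerivAt x (hasFDerivAt_coord 0 x)
  have h2 : HasFDerivAt (fun y : E2 => b (y 1))
      (b' (x 1) • (EuclideanSpace.proj 1 : E2 →L[ℝ] ℝ)) x :=
    (hb (x 1)).comp_hasFDerivAt x (hasFDerivAt_coord 1 x)
  have h3 : HasFDerivAt (fun y : E2 => a (y 0) * b (y 1)) _ x := h1.mul h2
  unfold pd
  rw [h3.fderiv]
  simp

/-- the components of the partial derivatives -/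
theorem pd_comp {h : E2 → E3} (hh : Differentiable ℝ h) (k : Fin 2) (c : Fin 3) :
    (fun x => (pd k h x) c) = pd k (fun y => h y c) := by
  funext x
  exact (J9677.job9677_coord (hh x) k c).symm

theorem inner3 (v w : E3) : ⟪v, w⟫ = v 0 * w 0 + v 1 * w 1 + v 2 * w 2 := by
  simp [PiLp.inner_apply, Fin.sum_univ_three]
  ring

section model

/-- the square root `√(r² - s² sin²)` -/
noncomputable def wf (r s t : ℝ) : ℝ := √(r ^ 2 - s ^ 2 * Real.sin t ^ 2)

variable {R r s : ℝ} (hs : 0 < s) (hsr : s < r)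

include hs hsr in
theorem rad_pos (t : ℝ) : 0 < r ^ 2 - s ^ 2 * Real.sin t ^ 2 := by
  have h1 := Real.sin_sq_le_one t
  have h2 : s ^ 2 < r ^ 2 := by nlinarith
  nlinarith [sq_nonneg s]

include hs hsr in
theorem wf_contDiff : ContDiff ℝ ∞ (wf r s) := by
  unfold wf
  apply ContDiff.sqrt
  · fun_prop
  · intro t
    exact (rad_pos hs hsr t).ne'

include hs hsr in
theorem wf_sq (t : ℝ) : wf r s t ^ 2 = r ^ 2 - s ^ 2 * Real.sin t ^ 2 :=
  Real.sq_sqrt (rad_pos hs hsr t).le

/-- the height of the profile curve -/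
noncomputable def zf (r s t : ℝ) : ℝ := ∫ u in (0 : ℝ)..t, wf r s u

include hs hsr in
theorem zf_deriv (t : ℝ) : HasDerivAt (zf r s) (wf r s t) t :=
  ((wf_contDiff hs hsr).continuous.integral_hasStrictDerivAt 0 t).hasDerivAt

include hs hsr in
theorem zf_contDiff : ContDiff ℝ 2 (zf r s) := by
  have h : ContDiff ℝ (1 + 1) (zf r s) := by
    rw [contDiff_succ_iff_deriv]
    refine ⟨fun t => (zf_deriv hs hsr t).differentiableAt, by simp, ?_⟩
    have : deriv (zf r s) = wf r s := funext fun t => (zf_deriv hs hsr t).deriv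
    rw [this]
    exact (wf_contDiff hs hsr).of_le (by exact_mod_cast le_top)
  simpa [one_add_one_eq_two] using h

/-- the model: a surface of revolution, not closed -/
noncomputable def model (R r s : ℝ) (x : E2) : E3 :=
  !₂[(R + s * Real.cos (x 0)) * Real.cos (x 1), (R + s * Real.cos (x 0)) * Real.sin (x 1),
    zf r s (x 0)]

include hs hsr in
theorem model_contDiff : ContDiff ℝ 2 (model R r s) := by
  rw [contDiff_euclidean]
  have h0 : ContDiff ℝ 2 (fun x : E2 => x 0) := (EuclideanSpace.proj 0 : E2 →L[ℝ] ℝ).contDiff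
  have h1 : ContDiff ℝ 2 (fun x : E2 => x 1) := (EuclideanSpace.proj 1 : E2 →L[ℝ] ℝ).contDiff
  have hz := zf_contDiff hs hsr
  intro i
  fin_cases i
  · show ContDiff ℝ 2 (fun x : E2 => (R + s * Real.cos (x 0)) * Real.cos (x 1))
    exact (contDiff_const.add (contDiff_const.mul (Real.contDiff_cos.comp h0))).mul
      (Real.contDiff_cos.comp h1)
  · show ContDiff ℝ 2 (fun x : E2 => (R + s * Real.cos (x 0)) * Real.sin (x 1))
    exact (contDiff_const.add (contDiff_const.mul (Real.contDiff_cos.comp h0))).mul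
      (Real.contDiff_sin.comp h1)
  · show ContDiff ℝ 2 (fun x : E2 => zf r s (x 0))
    exact hz.comp h0

theorem d_phi (t : ℝ) : HasDerivAt (fun t => R + s * Real.cos t) (-(s * Real.sin t)) t := by
  have := ((Real.hasDerivAt_cos t).const_mul s).const_add R
  simpa using this

theorem d_phi' (t : ℝ) : HasDerivAt (fun t => -(s * Real.sin t)) (-(s * Real.cos t)) t := by
  exact ((Real.hasDerivAt_sin t).const_mul s).neg

theorem d_msin (t : ℝ) : HasDerivAt (fun t => -Real.sin t) (-Real.cos t) t :=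
  (Real.hasDerivAt_sin t).neg

theorem c0 (x : E2) : (model R r s x) 0 = (R + s * Real.cos (x 0)) * Real.cos (x 1) := rfl
theorem c1 (x : E2) : (model R r s x) 1 = (R + s * Real.cos (x 0)) * Real.sin (x 1) := rfl
theorem c2 (x : E2) : (model R r s x) 2 = zf r s (x 0) := rfl

theorem diff_phi : Differentiable ℝ (fun t => R + s * Real.cos t) := fun t =>
  (d_phi (R := R) (s := s) t).differentiableAt

theorem diff_phi' : Differentiable ℝ (fun t => -(s * Real.sin t)) := fun t =>
  (d_phi' (s := s) t).differentiableAt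

include hs hsr in
/-- first derivatives of the model -/
theorem model_pd0 (x : E2) : (pd 0 (model R r s) x) 0 = -(s * Real.sin (x 0)) * Real.cos (x 1) ∧
    (pd 0 (model R r s) x) 1 = -(s * Real.sin (x 0)) * Real.sin (x 1) ∧
    (pd 0 (model R r s) x) 2 = wf r s (x 0) := by
  have hd := (model_contDiff (R := R) hs hsr).differentiable (by norm_num)
  refine ⟨?_, ?_, ?_⟩
  · have := congrFun (pd_comp hd 0 0) x
    rw [this]
    exact congrFun (pd_prod0 (fun t => R + s * Real.cos t) Real.cos _ (fun t => d_phi t)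
      Real.differentiable_cos) x
  · have := congrFun (pd_comp hd 0 1) x
    rw [this]
    exact congrFun (pd_prod0 (fun t => R + s * Real.cos t) Real.sin _ (fun t => d_phi t)
      Real.differentiable_sin) x
  · have := congrFun (pd_comp hd 0 2) x
    rw [this]
    have h := congrFun (pd_prod0 (zf r s) (fun _ => (1 : ℝ)) _ (fun t => zf_deriv hs hsr t)
      (differentiable_const _)) x
    simp only [mul_one] at h
    exact h

include hs hsr in
theorem model_pd1 (x : E2) : (pd 1 (model R r s) x) 0 = (R + s * Real.cos (x 0)) * -Real.sin (x 1) ∧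
    (pd 1 (model R r s) x) 1 = (R + s * Real.cos (x 0)) * Real.cos (x 1) ∧
    (pd 1 (model R r s) x) 2 = 0 := by
  have hd := (model_contDiff (R := R) hs hsr).differentiable (by norm_num)
  refine ⟨?_, ?_, ?_⟩
  · have := congrFun (pd_comp hd 1 0) x
    rw [this]
    exact congrFun (pd_prod1 (fun t => R + s * Real.cos t) Real.cos _ diff_phi
      Real.hasDerivAt_cos) x
  · have := congrFun (pd_comp hd 1 1) x
    rw [this]
    exact congrFun (pd_prod1 (fun t => R + s * Real.cos t) Real.sin _ diff_phi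
      Real.hasDerivAt_sin) x
  · have := congrFun (pd_comp hd 1 2) x
    rw [this]
    have h := congrFun (pd_prod1 (zf r s) (fun _ => (1 : ℝ)) (fun _ => 0)
      (fun t => (zf_deriv hs hsr t).differentiableAt) (fun t => hasDerivAt_const t 1)) x
    simp only [mul_one, mul_zero] at h
    exact h

include hs hsr in
/-- second derivatives of the model -/
theorem model_gauss (x : E2) :
    ⟪pd 0 (pd 0 (model R r s)) x, pd 1 (pd 1 (model R r s)) x⟫ -
      ⟪pd 0 (pd 1 (model R r s)) x, pd 0 (pd 1 (model R r s)) x⟫ =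
    (R + s * Real.cos (x 0)) * (s * Real.cos (x 0)) - (s * Real.sin (x 0)) ^ 2 := by
  have h2 := model_contDiff (R := R) hs hsr
  have hd0 : Differentiable ℝ (pd 0 (model R r s)) :=
    (J9677.job9677_pd_contDiff h2 0).differentiable (by norm_num)
  have hd1 : Differentiable ℝ (pd 1 (model R r s)) :=
    (J9677.job9677_pd_contDiff h2 1).differentiable (by norm_num)
  have a00 : (pd 0 (pd 0 (model R r s)) x) 0 = -(s * Real.cos (x 0)) * Real.cos (x 1) := by
    rw [congrFun (pd_comp hd0 0 0) x]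
    have : (fun y => (pd 0 (model R r s) y) 0) = fun y => -(s * Real.sin (y 0)) * Real.cos (y 1) :=
      funext fun y => (model_pd0 hs hsr y).1
    rw [this]
    exact congrFun (pd_prod0 (fun t => -(s * Real.sin t)) Real.cos _ (fun t => d_phi' t)
      Real.differentiable_cos) x
  have a01 : (pd 0 (pd 0 (model R r s)) x) 1 = -(s * Real.cos (x 0)) * Real.sin (x 1) := by
    rw [congrFun (pd_comp hd0 0 1) x]
    have : (fun y => (pd 0 (model R r s) y) 1) = fun y => -(s * Real.sin (y 0)) * Real.sin (y 1) :=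
      funext fun y => (model_pd0 hs hsr y).2.1
    rw [this]
    exact congrFun (pd_prod0 (fun t => -(s * Real.sin t)) Real.sin _ (fun t => d_phi' t)
      Real.differentiable_sin) x
  have b00 : (pd 1 (pd 1 (model R r s)) x) 0 = (R + s * Real.cos (x 0)) * -Real.cos (x 1) := by
    rw [congrFun (pd_comp hd1 1 0) x]
    have : (fun y => (pd 1 (model R r s) y) 0) =
        fun y => (R + s * Real.cos (y 0)) * -Real.sin (y 1) :=
      funext fun y => (model_pd1 hs hsr y).1
    rw [this]
    exact congrFun (pd_prod1 (fun t => R + s * Real.cos t) (fun t => -Real.sin t) _ diff_phi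
      (fun t => d_msin t)) x
  have b01 : (pd 1 (pd 1 (model R r s)) x) 1 = (R + s * Real.cos (x 0)) * -Real.sin (x 1) := by
    rw [congrFun (pd_comp hd1 1 1) x]
    have : (fun y => (pd 1 (model R r s) y) 1) =
        fun y => (R + s * Real.cos (y 0)) * Real.cos (y 1) :=
      funext fun y => (model_pd1 hs hsr y).2.1
    rw [this]
    exact congrFun (pd_prod1 (fun t => R + s * Real.cos t) Real.cos _ diff_phi
      Real.hasDerivAt_cos) x
  have b02 : (pd 1 (pd 1 (model R r s)) x) 2 = 0 := by
    rw [congrFun (pd_comp hd1 1 2) x]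
    have : (fun y => (pd 1 (model R r s) y) 2) = fun y => 0 :=
      funext fun y => (model_pd1 hs hsr y).2.2
    rw [this]
    simp [pd]
  have d00 : (pd 0 (pd 1 (model R r s)) x) 0 = -(s * Real.sin (x 0)) * -Real.sin (x 1) := by
    rw [congrFun (pd_comp hd1 0 0) x]
    have : (fun y => (pd 1 (model R r s) y) 0) =
        fun y => (R + s * Real.cos (y 0)) * -Real.sin (y 1) :=
      funext fun y => (model_pd1 hs hsr y).1
    rw [this]
    exact congrFun (pd_prod0 (fun t => R + s * Real.cos t) (fun t => -Real.sin t) _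
      (fun t => d_phi t) (fun t => (d_msin t).differentiableAt)) x
  have d01 : (pd 0 (pd 1 (model R r s)) x) 1 = -(s * Real.sin (x 0)) * Real.cos (x 1) := by
    rw [congrFun (pd_comp hd1 0 1) x]
    have : (fun y => (pd 1 (model R r s) y) 1) =
        fun y => (R + s * Real.cos (y 0)) * Real.cos (y 1) :=
      funext fun y => (model_pd1 hs hsr y).2.1
    rw [this]
    exact congrFun (pd_prod0 (fun t => R + s * Real.cos t) Real.cos _ (fun t => d_phi t)
      Real.differentiable_cos) x
  have d02 : (pd 0 (pd 1 (model R r s)) x) 2 = 0 := by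
    rw [congrFun (pd_comp hd1 0 2) x]
    have : (fun y => (pd 1 (model R r s) y) 2) = fun y => 0 :=
      funext fun y => (model_pd1 hs hsr y).2.2
    rw [this]
    simp [pd]
  rw [inner3, inner3, a00, a01, b00, b01, b02, d00, d01, d02]
  have h := Real.sin_sq_add_cos_sq (x 1)
  linear_combination ((R + s * Real.cos (x 0)) * (s * Real.cos (x 0)) - (s * Real.sin (x 0)) ^ 2) * h

include hs hsr in
theorem model_metric (x : E2) (i j : Fin 2) :
    ⟪pd i (model R r s) x, pd j (model R r s) x⟫ = pmetric R r s x i j := by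
  obtain ⟨a0, a1, a2⟩ := model_pd0 (R := R) hs hsr x
  obtain ⟨b0, b1, b2⟩ := model_pd1 (R := R) hs hsr x
  have h := Real.sin_sq_add_cos_sq (x 1)
  have hw := wf_sq hs hsr (x 0)
  fin_cases i <;> fin_cases j
  · show ⟪pd 0 (model R r s) x, pd 0 (model R r s) x⟫ = r ^ 2
    rw [inner3, a0, a1, a2]
    linear_combination (s * Real.sin (x 0)) ^ 2 * h + hw
  · show ⟪pd 0 (model R r s) x, pd 1 (model R r s) x⟫ = 0
    rw [inner3, a0, a1, a2, b0, b1, b2]
    ring
  · show ⟪pd 1 (model R r s) x, pd 0 (model R r s) x⟫ = 0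
    rw [inner3, a0, a1, a2, b0, b1, b2]
    ring
  · show ⟪pd 1 (model R r s) x, pd 1 (model R r s) x⟫ = (R + s * Real.cos (x 0)) ^ 2
    rw [inner3, b0, b1, b2]
    linear_combination (R + s * Real.cos (x 0)) ^ 2 * h

end model

end Pool.Agent.N528.Torus
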