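import Pool.Agent.N528.Torus.Close

/-! The main theorem on the standard torus. -/

set_option autoImplicit false

open scoped ContDiff RealInnerProductSpace Topology
open Set

namespace Pool.Agent.N528.Torus

/-- the two functions in the difference of the metrics -/
noncomputable def u1 (x : Plane) : ℝ := Real.cos (x 0)
noncomputable def u2 (x : Plane) : ℝ := Real.cos (x 0) ^ 2

theorem u1_smooth : ContDiff ℝ ∞ u1 := Real.contDiff_cos.comp cx0
theorem u2_smooth : ContDiff ℝ ∞ u2 := u1_smooth.pow 2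

theorem u1_per : DoublyPeriodic u1 := by
  intro x i
  unfold u1
  fin_cases i
  · simp [e, Real.cos_add_two_pi]
  · simp [e]

theorem u2_per : DoublyPeriodic u2 := by
  intro x i
  have := u1_per x i
  unfold u1 at this
  unfold u2
  rw [this]

theorem exists_bound (m : ℕ) : ∃ C, 0 ≤ C ∧ ∀ x, ‖iteratedFDeriv ℝ m u1 x‖ ≤ C ∧
    ‖iteratedFDeriv ℝ m u2 x‖ ≤ C := by
  obtain ⟨C1, h1⟩ := bounded_iterated u1 u1_smooth u1_per m
  obtain ⟨C2, h2⟩ := bounded_iterated u2 u2_smooth u2_per m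
  refine ⟨max C1 C2, ?_, fun x => ⟨(h1 x).trans (le_max_left _ _), (h2 x).trans (le_max_right _ _)⟩⟩
  exact (norm_nonneg _).trans ((h1 0).trans (le_max_left _ _))

theorem exists_bound' (k : ℕ) : ∃ C, 0 < C ∧ ∀ m ≤ k, ∀ x, ‖iteratedFDeriv ℝ m u1 x‖ ≤ C ∧
    ‖iteratedFDeriv ℝ m u2 x‖ ≤ C := by
  induction k with
  | zero =>
    obtain ⟨C, hC, h⟩ := exists_bound 0
    refine ⟨C + 1, by positivity, fun m hm x => ?_⟩
    obtain rfl : m = 0 := by omega
    exact ⟨(h x).1.trans (by linarith), (h x).2.trans (by linarith)⟩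
  | succ k ih =>
    obtain ⟨C, hC, h⟩ := ih
    obtain ⟨C', hC', h'⟩ := exists_bound (k + 1)
    refine ⟨C + C', by positivity, fun m hm x => ?_⟩
    rcases Nat.lt_or_ge k m with hm' | hm'
    · obtain rfl : m = k + 1 := by omega
      exact ⟨(h' x).1.trans (by linarith), (h' x).2.trans (by linarith)⟩
    · exact ⟨(h m hm' x).1.trans (by linarith), (h m hm' x).2.trans (by linarith)⟩

theorem diff_11 (R r s : ℝ) : (fun y : Plane => pmetric R r s y 1 1 - torusMetric R r y 1 1) =
    fun y => ((s - r) * (2 * R)) • u1 y + ((s - r) * (s + r)) • u2 y := by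
  funext y
  have h := congrFun (congrFun (pmetric_sub R r s y) 1) 1
  have h' : pmetric R r s y 1 1 - torusMetric R r y 1 1 =
    (s - r) * (2 * R * Real.cos (y 0) + (s + r) * Real.cos (y 0) ^ 2) := h
  rw [h']
  unfold u1 u2
  simp only [smul_eq_mul]
  ring

theorem iter_le {R r s C : ℝ} (hs : 0 < s) (hsr : s < r) (hR : 0 < R) (m : ℕ)
    (h : ∀ x, ‖iteratedFDeriv ℝ m u1 x‖ ≤ C ∧ ‖iteratedFDeriv ℝ m u2 x‖ ≤ C) (x : Plane) :
    ‖iteratedFDeriv ℝ m (fun y => pmetric R r s y 1 1 - torusMetric R r y 1 1) x‖ ≤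
      (r - s) * ((2 * R + 2 * r) * C) := by
  rw [diff_11]
  have h1 : ContDiffAt ℝ m (fun y => ((s - r) * (2 * R)) • u1 y) x :=
    ((u1_smooth.of_le (by exact_mod_cast le_top)).const_smul _).contDiffAt
  have h2 : ContDiffAt ℝ m (fun y => ((s - r) * (s + r)) • u2 y) x :=
    ((u2_smooth.of_le (by exact_mod_cast le_top)).const_smul _).contDiffAt
  have e1 : iteratedFDeriv ℝ m (fun y => ((s - r) * (2 * R)) • u1 y +
      ((s - r) * (s + r)) • u2 y) x =
      iteratedFDeriv ℝ m (fun y => ((s - r) * (2 * R)) • u1 y) x +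
      iteratedFDeriv ℝ m (fun y => ((s - r) * (s + r)) • u2 y) x :=
    iteratedFDeriv_add_apply h1 h2
  have g1 : ContDiffAt ℝ m u1 x := (u1_smooth.of_le (by exact_mod_cast le_top)).contDiffAt
  have g2 : ContDiffAt ℝ m u2 x := (u2_smooth.of_le (by exact_mod_cast le_top)).contDiffAt
  have e2 : iteratedFDeriv ℝ m (fun y => ((s - r) * (2 * R)) • u1 y) x =
      ((s - r) * (2 * R)) • iteratedFDeriv ℝ m u1 x :=
    iteratedFDeriv_const_smul_apply (a := (s - r) * (2 * R)) g1
  have e3 : iteratedFDeriv ℝ m (fun y => ((s - r) * (s + r)) • u2 y) x =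
      ((s - r) * (s + r)) • iteratedFDeriv ℝ m u2 x :=
    iteratedFDeriv_const_smul_apply (a := (s - r) * (s + r)) g2
  rw [e1, e2, e3]
  refine (norm_add_le _ _).trans ?_
  have a1 : |(s - r) * (2 * R)| = -(s - r) * (2 * R) := by
    rw [abs_mul, abs_of_neg (by linarith : s - r < 0), abs_of_pos (by positivity : 0 < 2 * R)]
  have a2 : |(s - r) * (s + r)| = -(s - r) * (s + r) := by
    rw [abs_mul, abs_of_neg (by linarith : s - r < 0), abs_of_pos (by linarith : 0 < s + r)]
  rw [norm_smul, norm_smul, Real.norm_eq_abs, Real.norm_eq_abs, a1, a2]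
  obtain ⟨b1, b2⟩ := h x
  have hC : 0 ≤ C := (norm_nonneg _).trans b1
  have t1 : -(s - r) * (2 * R) * ‖iteratedFDeriv ℝ m u1 x‖ ≤ (r - s) * (2 * R) * C := by
    have : -(s - r) * (2 * R) = (r - s) * (2 * R) := by ring
    rw [this]
    exact mul_le_mul_of_nonneg_left b1 (by nlinarith)
  have t2 : -(s - r) * (s + r) * ‖iteratedFDeriv ℝ m u2 x‖ ≤ (r - s) * (2 * r) * C := by
    have : -(s - r) * (s + r) = (r - s) * (s + r) := by ring
    rw [this]
    have h3 : (r - s) * (s + r) * ‖iteratedFDeriv ℝ m u2 x‖ ≤ (r - s) * (s + r) * C :=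
      mul_le_mul_of_nonneg_left b2 (by nlinarith)
    have h4 : (r - s) * (s + r) * C ≤ (r - s) * (2 * r) * C := by
      apply mul_le_mul_of_nonneg_right _ hC
      nlinarith
    exact h3.trans h4
  calc _ ≤ (r - s) * (2 * R) * C + (r - s) * (2 * r) * C := add_le_add t1 t2
    _ = _ := by ring

theorem exists_close {R r : ℝ} (hr : 0 < r) (hR : r < R) {ε : ℝ} (hε : 0 < ε) (k : ℕ) :
    ∃ s, 0 < s ∧ s < r ∧ C0Close ε (torusMetric R r) (pmetric R r s) ∧
      CkClose k ε (torusMetric R r) (pmetric R r s) := by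
  obtain ⟨C, hC, hb⟩ := exists_bound' k
  have hR0 : 0 < R := hr.trans hR
  set K : ℝ := (2 * R + 2 * r) * C + (2 * R + 2 * r) / (R - r) ^ 2 with hK
  have hRr : 0 < R - r := by linarith
  have hK0 : 0 < K := by positivity
  set δ : ℝ := min (r / 2) (ε / (2 * K)) with hδ
  have hδ0 : 0 < δ := by positivity
  have hδr : δ ≤ r / 2 := min_le_left _ _
  have hδε : δ * K ≤ ε / 2 := by
    have h1 : δ ≤ ε / (2 * K) := min_le_right _ _
    calc δ * K ≤ ε / (2 * K) * K := by gcongr
      _ = ε / 2 := by field_simp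
  refine ⟨r - δ, by linarith, by linarith, ?_, ?_⟩
  · refine ⟨ε / 2, by linarith, fun x => ?_⟩
    have hc1 := Real.neg_one_le_cos (x 0)
    have hc2 := Real.cos_le_one (x 0)
    have hph : R - r ≤ R + r * Real.cos (x 0) := by nlinarith
    have hph0 : 0 < R + r * Real.cos (x 0) := by linarith
    rw [pmetric_sub]
    have ht := tensorNorm_diag (a := r ^ 2) (b := (R + r * Real.cos (x 0)) ^ 2)
      (c := (r - δ - r) * (2 * R * Real.cos (x 0) + (r - δ + r) * Real.cos (x 0) ^ 2))
      (by positivity) (by positivity)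
    show tensorNorm !![r ^ 2, 0; 0, (R + r * Real.cos (x 0)) ^ 2] _ ≤ ε / 2
    rw [ht]
    have habs : |(r - δ - r) * (2 * R * Real.cos (x 0) + (r - δ + r) * Real.cos (x 0) ^ 2)| ≤
        δ * (2 * R + 2 * r) := by
      rw [abs_mul]
      have h1 : |r - δ - r| = δ := by
        rw [show r - δ - r = -δ by ring, abs_neg, abs_of_pos hδ0]
      rw [h1]
      apply mul_le_mul_of_nonneg_left _ hδ0.le
      have hsq : Real.cos (x 0) ^ 2 ≤ 1 := Real.cos_sq_le_one _
      have hsq0 : 0 ≤ Real.cos (x 0) ^ 2 := sq_nonneg _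
      rw [abs_le]
      constructor <;> nlinarith
    have h2 : (R - r) ^ 2 ≤ (R + r * Real.cos (x 0)) ^ 2 := by
      apply pow_le_pow_left₀ hRr.le hph
    calc _ ≤ δ * (2 * R + 2 * r) / (R - r) ^ 2 := by gcongr
      _ = δ * ((2 * R + 2 * r) / (R - r) ^ 2) := by ring
      _ ≤ δ * K := by
        apply mul_le_mul_of_nonneg_left _ hδ0.le
        rw [hK]
        have : 0 ≤ (2 * R + 2 * r) * C := by positivity
        linarith
      _ ≤ ε / 2 := hδε
  · intro m hm i j x
    have hzero : ∀ u : Plane → ℝ, (∀ y, u y = 0) → ‖iteratedFDeriv ℝ m u x‖ < ε := by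
      intro u hu
      have : u = fun _ => (0 : ℝ) := funext hu
      rw [this]
      have h0 : iteratedFDeriv ℝ m (fun _ : Plane => (0 : ℝ)) = 0 := iteratedFDeriv_fun_zero
      rw [h0]
      simpa using hε
    have hsub : ∀ y, pmetric R r (r - δ) y i j - torusMetric R r y i j =
        (pmetric R r (r - δ) y - torusMetric R r y) i j := fun y => rfl
    fin_cases i <;> fin_cases j
    · refine hzero _ fun y => ?_
      simp [pmetric, torusMetric]
    · refine hzero _ fun y => ?_
      simp [pmetric, torusMetric]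
    · refine hzero _ fun y => ?_
      simp [pmetric, torusMetric]
    · have h := iter_le (R := R) (r := r) (s := r - δ) (by linarith) (by linarith) hR0 m
        (hb m hm) x
      refine lt_of_le_of_lt h ?_
      have h1 : (r - (r - δ)) * ((2 * R + 2 * r) * C) ≤ δ * K := by
        rw [show r - (r - δ) = δ by ring]
        apply mul_le_mul_of_nonneg_left _ hδ0.le
        rw [hK]
        have : 0 ≤ (2 * R + 2 * r) / (R - r) ^ 2 := by positivity
        linarith
      linarith

/-- **Main theorem.** -/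
theorem main (R r : ℝ) (hr : 0 < r) (hR : r < R) :
    IsSmoothMetric (torusMetric R r) ∧ IsIsometricEmbedding ∞ (torusMetric R r) (torusMap R r) ∧
    ∀ ε : ℝ, 0 < ε → ∀ k : ℕ, ∃ g : Plane → Matrix (Fin 2) (Fin 2) ℝ,
      IsSmoothMetric g ∧ C0Close ε (torusMetric R r) g ∧ CkClose k ε (torusMetric R r) g ∧
      ∀ f : Plane → Space, ¬ IsIsometricImmersion 2 g f := by
  refine ⟨?_, torusMap_embedding hr hR, fun ε hε k => ?_⟩
  · rw [← pmetric_self]
    exact pmetric_smooth hr hr hR
  · obtain ⟨s, hs, hsr, h0, hk⟩ := exists_close hr hR hε k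
    exact ⟨pmetric R r s, pmetric_smooth hr hs (hsr.trans hR), h0, hk,
      fun f hf => no_immersion hs hsr hR hf⟩

end Pool.Agent.N528.Torus
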